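import Pool.Agent.H863R2.NL.CLT

/-!
Local limit bounds for sums of independent Bernoulli variables.
-/

namespace Pool.Agent.H450R4.NL
open MeasureTheory Filter Topology Real

/-- characteristic function of a sum of independent Bernoulli variables -/
noncomputable def Ph (s : Multiset ℝ) (u : ℝ) : ℂ :=
  (s.map (fun p : ℝ => 1 + (p : ℂ) * (Complex.exp (u * Complex.I) - 1))).prod

theorem one_norm {p u : ℝ} (hp0 : 0 ≤ p) (hp1 : p ≤ 1) :
    ‖1 + (p : ℂ) * (Complex.exp (u * Complex.I) - 1)‖ ≤ exp (-(p * (1 - p)) * (1 - cos u)) := by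
  have h1 : ‖1 + (p : ℂ) * (Complex.exp (u * Complex.I) - 1)‖ ^ 2 =
      1 - 2 * (p * (1 - p)) * (1 - cos u) := by
    rw [Complex.exp_mul_I, ← Complex.ofReal_cos, ← Complex.ofReal_sin, Complex.sq_norm,
      Complex.normSq_apply]
    simp
    rw [Complex.cos_ofReal_re, Complex.sin_ofReal_re]
    have := sin_sq_add_cos_sq u
    linear_combination p ^ 2 * this
  have h2 : ‖1 + (p : ℂ) * (Complex.exp (u * Complex.I) - 1)‖ ^ 2 ≤
      exp (-(p * (1 - p)) * (1 - cos u)) ^ 2 := by
    rw [h1, ← exp_nat_mul]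
    have := add_one_le_exp (((2 : ℕ) : ℝ) * (-(p * (1 - p)) * (1 - cos u)))
    push_cast at this ⊢
    linarith
  exact (pow_le_pow_iff_left₀ (norm_nonneg _) (exp_pos _).le (by norm_num)).1 h2

theorem Ph_norm (s : Multiset ℝ) (hs : ∀ p ∈ s, 0 < p ∧ p ≤ 1 / 3) (u : ℝ) :
    ‖Ph s u‖ ≤ exp (-(s.map (fun p => p * (1 - p))).sum * (1 - cos u)) := by
  unfold Ph
  induction s using Multiset.induction_on with
  | empty => simp
  | cons a s ih =>
    have ih' := ih (fun p hp => hs p (Multiset.mem_cons_of_mem hp))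
    have ha := hs a (Multiset.mem_cons_self a s)
    simp only [Multiset.map_cons, Multiset.prod_cons, Multiset.sum_cons]
    rw [norm_mul]
    calc _ ≤ exp (-(a * (1 - a)) * (1 - cos u)) *
          exp (-(s.map (fun p => p * (1 - p))).sum * (1 - cos u)) :=
          mul_le_mul (one_norm ha.1.le (by linarith [ha.2])) ih' (norm_nonneg _) (exp_pos _).le
      _ = _ := by
          rw [← exp_add]
          congr 1
          ring

theorem cos_up {u : ℝ} (hu : |u| ≤ π) : 2 / π ^ 2 * u ^ 2 ≤ 1 - cos u := by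
  have := cos_le_one_sub_mul_cos_sq hu
  linarith

theorem Ph_cont (s : Multiset ℝ) : Continuous (Ph s) := by
  unfold Ph
  induction s using Multiset.induction_on with
  | empty => simpa using continuous_const
  | cons a s ih =>
    simp only [Multiset.map_cons, Multiset.prod_cons]
    refine Continuous.mul ?_ ih
    fun_prop

theorem orth (k m : ℕ) : ∫ u in (-π)..π, Complex.exp (m * (u * Complex.I)) *
    Complex.exp (-(k * (u * Complex.I))) = if m = k then (2 * π : ℂ) else 0 := by
  have h : ∀ u : ℝ, Complex.exp (m * (u * Complex.I)) * Complex.exp (-(k * (u * Complex.I))) =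
      Complex.exp ((((m : ℂ) - k) * Complex.I) * u) := by
    intro u
    rw [← Complex.exp_add]
    congr 1
    ring
  simp_rw [h]
  split_ifs with hmk
  · subst hmk
    simp
    ring
  · have hc : ((m : ℂ) - k) * Complex.I ≠ 0 := by
      apply mul_ne_zero _ Complex.I_ne_zero
      rw [sub_ne_zero]
      exact_mod_cast hmk
    rw [integral_exp_mul_complex hc]
    have e : Complex.exp (((m : ℂ) - k) * Complex.I * (π : ℝ)) =
        Complex.exp (((m : ℂ) - k) * Complex.I * ((-π : ℝ) : ℂ)) := by
      rw [Complex.exp_eq_exp_iff_exists_int]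
      refine ⟨(m : ℤ) - k, ?_⟩
      push_cast
      ring
    rw [e, sub_self, zero_div]

theorem coef {ι : Type*} [Fintype ι] (w : ι → ℝ) (f : ι → ℕ) (s : Multiset ℝ)
    (h : ∀ u : ℝ, ∑ i, (w i : ℂ) * Complex.exp (f i * (u * Complex.I)) = Ph s u) (k : ℕ) :
    ∫ u in (-π)..π, Ph s u * Complex.exp (-(k * (u * Complex.I))) =
      ((∑ i, if f i = k then w i else 0 : ℝ) : ℂ) * (2 * π) := by
  have h1 : ∀ u : ℝ, Ph s u * Complex.exp (-(k * (u * Complex.I))) =
      ∑ i, (w i : ℂ) * (Complex.exp (f i * (u * Complex.I)) *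
        Complex.exp (-(k * (u * Complex.I)))) := by
    intro u
    rw [← h u, Finset.sum_mul]
    apply Finset.sum_congr rfl
    intro i _
    ring
  simp_rw [h1]
  rw [intervalIntegral.integral_finsetSum]
  · simp_rw [intervalIntegral.integral_const_mul, orth]
    push_cast
    rw [Finset.sum_mul]
    apply Finset.sum_congr rfl
    intro i _
    split_ifs <;> simp
  · intro i _
    apply Continuous.intervalIntegrable
    fun_prop

/-- local upper bound -/
theorem loc_upper {s : Multiset ℝ} (hs : ∀ p ∈ s, 0 < p ∧ p ≤ 1 / 3) {V : ℝ}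
    (hV : V = (s.map (fun p => p * (1 - p))).sum) (hV0 : 0 < V) {P : ℝ} {k : ℕ}
    (h : ∫ u in (-π)..π, Ph s u * Complex.exp (-(k * (u * Complex.I))) = (P : ℂ) * (2 * π)) :
    P ≤ 1 / √V := by
  have hpi := pi_pos
  have h1 : P * (2 * π) ≤ ‖∫ u in (-π)..π, Ph s u * Complex.exp (-(k * (u * Complex.I)))‖ := by
    rw [h, norm_mul]
    have e : ‖((2 : ℂ) * π)‖ = 2 * π := by
      rw [norm_mul, Complex.norm_real, norm_of_nonneg hpi.le]
      simp
    rw [e, Complex.norm_real]
    exact mul_le_mul_of_nonneg_right (le_abs_self P) (by positivity)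
  have hb : 0 < 2 / π ^ 2 * V := by positivity
  have h2 : ∀ u ∈ Set.Ioc (-π) π, ‖Ph s u * Complex.exp (-(k * (u * Complex.I)))‖ ≤
      exp (-(2 / π ^ 2 * V) * u ^ 2) := by
    intro u hu
    rw [norm_mul]
    have e : ‖Complex.exp (-(k * (u * Complex.I)))‖ = 1 := by
      rw [show (-(k * (u * Complex.I)) : ℂ) = ((-(k * u) : ℝ) : ℂ) * Complex.I by push_cast; ring]
      exact Complex.norm_exp_ofReal_mul_I _
    rw [e, mul_one]
    refine (Ph_norm s hs u).trans ?_
    rw [← hV]
    apply exp_le_exp.2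
    have h3 := cos_up (u := u) (abs_le.2 ⟨by linarith [hu.1], hu.2⟩)
    have := mul_le_mul_of_nonneg_left h3 hV0.le
    linarith
  have h3 : ‖∫ u in (-π)..π, Ph s u * Complex.exp (-(k * (u * Complex.I)))‖ ≤
      ∫ u in (-π)..π, exp (-(2 / π ^ 2 * V) * u ^ 2) := by
    apply intervalIntegral.norm_integral_le_of_norm_le (by linarith)
    · exact Eventually.of_forall h2
    · apply Continuous.intervalIntegrable
      fun_prop
  have h4 : ∫ u in (-π)..π, exp (-(2 / π ^ 2 * V) * u ^ 2) ≤ √(π / (2 / π ^ 2 * V)) := by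
    rw [← integral_gaussian, intervalIntegral.integral_of_le (by linarith)]
    apply setIntegral_le_integral (integrable_exp_neg_mul_sq hb)
    exact Eventually.of_forall fun u => (exp_pos _).le
  have h5 : √(π / (2 / π ^ 2 * V)) ≤ 2 * π * (1 / √V) := by
    have e : π / (2 / π ^ 2 * V) = π ^ 2 * (π / 2) / V := by
      field_simp
    rw [e, sqrt_div (by positivity), sqrt_mul (by positivity), sqrt_sq hpi.le, mul_one_div]
    apply div_le_div_of_nonneg_right _ (sqrt_nonneg _)
    have h6 : √(π / 2) ≤ 2 := by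
      rw [sqrt_le_left (by norm_num)]
      linarith [pi_lt_four]
    nlinarith
  have h6 : P * (2 * π) ≤ (1 / √V) * (2 * π) := by linarith
  exact le_of_mul_le_mul_right h6 (by positivity)

theorem exp10 : exp (-10) ≤ 1 / 1024 := by
  have h5 : (2 : ℝ) ≤ exp 1 := by
    have := add_one_le_exp (1 : ℝ)
    linarith
  have h6 : (2 : ℝ) ^ 10 ≤ exp 10 := by
    calc (2 : ℝ) ^ 10 ≤ exp 1 ^ 10 := pow_le_pow_left₀ (by norm_num) h5 10
      _ = exp 10 := by rw [← exp_nat_mul]; norm_num
  rw [exp_neg, ← one_div]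
  apply one_div_le_one_div_of_le (by norm_num)
  norm_num at h6
  linarith

/-- local lower bound -/
theorem loc_lower {c C0 : ℝ} (hc : 0 < c) (hC0 : 0 ≤ C0) : ∃ V0 : ℝ, ∀ (s : Multiset ℝ),
    (∀ p ∈ s, 0 < p ∧ p ≤ 1 / 3) → ∀ V : ℝ, V = (s.map (fun p => p * (1 - p))).sum → V0 ≤ V →
    s.sum ≤ c * V → ∀ (k : ℕ), |s.sum - k| ≤ C0 → ∀ P : ℝ,
    ∫ u in (-π)..π, Ph s u * Complex.exp (-(k * (u * Complex.I))) = (P : ℂ) * (2 * π) →
    1 / (100 * √V) ≤ P := by
  have hpi := pi_pos
  have hpi3 := pi_gt_three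
  have hpi4 := pi_lt_d2
  refine ⟨max 100 (max ((10 * C0) ^ 2) ((12000 * c * exp 50) ^ 2)), ?_⟩
  intro s hs V hV hV0 hsum k hk P h
  have v1 : 100 ≤ V := (le_max_left _ _).trans hV0
  have v2 : (10 * C0) ^ 2 ≤ V := (le_max_left _ _).trans ((le_max_right _ _).trans hV0)
  have v3 : (12000 * c * exp 50) ^ 2 ≤ V := (le_max_right _ _).trans ((le_max_right _ _).trans hV0)
  have hVp : 0 < V := by linarith
  have hq : 0 < √V := sqrt_pos.2 hVp
  have hqq : √V ^ 2 = V := sq_sqrt hVp.le
  have q1 : 10 ≤ √V := by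
    rw [le_sqrt (by norm_num) hVp.le]
    linarith
  have q2 : 10 * C0 ≤ √V := (le_sqrt (by positivity) hVp.le).2 v2
  have q3 : 12000 * c * exp 50 ≤ √V := (le_sqrt (by positivity) hVp.le).2 v3
  set b : ℝ := 2 / π ^ 2 with hb
  have hb0 : 0 < b := by positivity
  have hb1 : b ≤ 1 / 2 := by
    rw [hb, div_le_iff₀ (by positivity)]
    nlinarith
  -- pointwise bound
  have key : ∀ u : ℝ, |u| ≤ π → 1 / 4 * exp (-(V / 2) * u ^ 2) -
      2 * exp (-10) * exp (-(b * V / 2) * u ^ 2) ≤
      (Ph s u * Complex.exp (-(k * (u * Complex.I)))).re := by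
    intro u hu
    have e : ‖Complex.exp (-(k * (u * Complex.I)))‖ = 1 := by
      rw [show (-(k * (u * Complex.I)) : ℂ) = ((-(k * u) : ℝ) : ℂ) * Complex.I by push_cast; ring]
      exact Complex.norm_exp_ofReal_mul_I _
    rcases le_or_gt |u| (10 / √V) with hu1 | hu1
    · have hu2 : |u| ≤ 1 := hu1.trans ((div_le_one hq).2 q1)
      have h1 := Pool.Agent.H863R2.NL.CLTAux.char_approx s hs hu2
      set M : ℂ := Complex.exp ((u * s.sum : ℝ) * Complex.I -
        (u ^ 2 * (s.map (fun p => p * (1 - p))).sum / 2 : ℝ)) with hM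
      have h2 : ‖Ph s u * Complex.exp (-(k * (u * Complex.I))) -
          M * Complex.exp (-(k * (u * Complex.I)))‖ ≤ 3 * |u| ^ 3 * s.sum := by
        rw [← sub_mul, norm_mul, e, mul_one]
        exact h1
      have h3 : (M * Complex.exp (-(k * (u * Complex.I)))).re =
          exp (-(V / 2) * u ^ 2) * cos ((s.sum - k) * u) := by
        rw [hM, ← Complex.exp_add, ← hV]
        have e2 : ((u * s.sum : ℝ) * Complex.I - (u ^ 2 * V / 2 : ℝ)) + -(k * (u * Complex.I)) =
            ((-(V / 2) * u ^ 2 : ℝ) : ℂ) + (((s.sum - k) * u : ℝ) : ℂ) * Complex.I := by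
          push_cast
          ring
        rw [e2, Complex.exp_add, Complex.exp_mul_I, ← Complex.ofReal_exp, Complex.re_ofReal_mul,
          ← Complex.ofReal_cos, ← Complex.ofReal_sin, Complex.add_re, Complex.ofReal_re,
          Complex.re_ofReal_mul, Complex.I_re, mul_zero, add_zero]
      have h4 : 1 / 2 ≤ cos ((s.sum - k) * u) := by
        have h5 := one_sub_sq_div_two_le_cos (x := (s.sum - k) * u)
        have h6 : |(s.sum - k) * u| ≤ 1 := by
          rw [abs_mul]
          calc |s.sum - k| * |u| ≤ C0 * (10 / √V) :=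
                mul_le_mul hk hu1 (abs_nonneg _) hC0
            _ = 10 * C0 / √V := by ring
            _ ≤ 1 := (div_le_one hq).2 q2
        have h7 : ((s.sum - k) * u) ^ 2 ≤ 1 := by
          rw [← sq_abs]
          exact pow_le_one₀ (abs_nonneg _) h6
        linarith
      have h5 : |(Ph s u * Complex.exp (-(k * (u * Complex.I)))).re -
          (M * Complex.exp (-(k * (u * Complex.I)))).re| ≤ 3 * |u| ^ 3 * s.sum := by
        rw [← Complex.sub_re]
        exact (Complex.abs_re_le_norm _).trans h2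
      rw [h3] at h5
      have h6 := (abs_le.1 h5).1
      have hu3 : u ^ 2 ≤ 100 / V := by
        rw [← sq_abs]
        calc |u| ^ 2 ≤ (10 / √V) ^ 2 := pow_le_pow_left₀ (abs_nonneg _) hu1 2
          _ = 100 / V := by rw [div_pow, hqq]; norm_num
      have h7 : exp (-50) ≤ exp (-(V / 2) * u ^ 2) := by
        apply exp_le_exp.2
        have : V / 2 * u ^ 2 ≤ V / 2 * (100 / V) := mul_le_mul_of_nonneg_left hu3 (by positivity)
        have e3 : V / 2 * (100 / V) = 50 := by field_simp; norm_num
        linarith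
      have h8 : 3 * |u| ^ 3 * s.sum ≤ 1 / 4 * exp (-50) := by
        have h9 : |u| ^ 3 ≤ (10 / √V) ^ 3 := pow_le_pow_left₀ (abs_nonneg _) hu1 3
        have h10 : (10 / √V) ^ 3 * V = 1000 / √V := by
          have e5 : (10 / √V) ^ 3 * √V ^ 2 = 1000 / √V := by
            field_simp
            norm_num
          rwa [hqq] at e5
        have h11 : 3 * |u| ^ 3 * s.sum ≤ 3 * (10 / √V) ^ 3 * (c * V) := by
          apply mul_le_mul (by linarith) hsum _ (by positivity)
          apply Multiset.sum_nonneg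
          intro p hp
          exact (hs p hp).1.le
        have h12 : 3 * (10 / √V) ^ 3 * (c * V) = 3000 * c / √V := by
          calc 3 * (10 / √V) ^ 3 * (c * V) = 3 * c * ((10 / √V) ^ 3 * V) := by ring
            _ = _ := by rw [h10]; ring
        have h13 : 3000 * c / √V ≤ 1 / 4 * exp (-50) := by
          rw [div_le_iff₀ hq]
          have h14 : exp (-50) * exp 50 = 1 := by rw [← exp_add]; norm_num
          have h15 : exp (-50) * (12000 * c * exp 50) ≤ exp (-50) * √V :=
            mul_le_mul_of_nonneg_left q3 (exp_pos _).le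
          nlinarith
        linarith
      have h9 : 0 < exp (-(b * V / 2) * u ^ 2) := exp_pos _
      have h10 : 0 < exp (-(10 : ℝ)) := exp_pos _
      have h11 : exp (-(V / 2) * u ^ 2) * (1 / 2) ≤
          exp (-(V / 2) * u ^ 2) * cos ((s.sum - k) * u) :=
        mul_le_mul_of_nonneg_left h4 (exp_pos _).le
      nlinarith [mul_pos h10 h9]
    · have hu3 : 100 / V ≤ u ^ 2 := by
        rw [← sq_abs]
        calc 100 / V = (10 / √V) ^ 2 := by rw [div_pow, hqq]; norm_num
          _ ≤ |u| ^ 2 := pow_le_pow_left₀ (by positivity) hu1.le 2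
      have h1 : ‖Ph s u * Complex.exp (-(k * (u * Complex.I)))‖ ≤ exp (-(b * V) * u ^ 2) := by
        rw [norm_mul, e, mul_one]
        refine (Ph_norm s hs u).trans ?_
        rw [← hV]
        apply exp_le_exp.2
        have := mul_le_mul_of_nonneg_left (cos_up hu) hVp.le
        rw [← hb] at this
        linarith
      have h2 : exp (-(b * V) * u ^ 2) ≤ exp (-10) * exp (-(b * V / 2) * u ^ 2) := by
        rw [← exp_add]
        apply exp_le_exp.2
        have h3 : b * V / 2 * (100 / V) ≤ b * V / 2 * u ^ 2 :=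
          mul_le_mul_of_nonneg_left hu3 (by positivity)
        have h4 : b * V / 2 * (100 / V) = 100 / π ^ 2 := by
          rw [hb]
          field_simp
        have h5 : 10 ≤ 100 / π ^ 2 := by
          rw [le_div_iff₀ (by positivity)]
          nlinarith
        linarith
      have h3 : exp (-(V / 2) * u ^ 2) ≤ exp (-10) * exp (-(b * V / 2) * u ^ 2) := by
        refine le_trans ?_ h2
        apply exp_le_exp.2
        have : b * V * u ^ 2 ≤ 1 / 2 * V * u ^ 2 := by
          apply mul_le_mul_of_nonneg_right _ (sq_nonneg u)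
          exact mul_le_mul_of_nonneg_right hb1 hVp.le
        linarith
      have h4 := (abs_le.1 ((Complex.abs_re_le_norm _).trans h1)).1
      have h5 : 0 < exp (-10) * exp (-(b * V / 2) * u ^ 2) := by positivity
      linarith
  -- integration
  have hre : P * (2 * π) = ∫ u in (-π)..π, (Ph s u * Complex.exp (-(k * (u * Complex.I)))).re := by
    have hi : IntervalIntegrable (fun u : ℝ => Ph s u * Complex.exp (-(k * (u * Complex.I))))
        volume (-π) π := by
      apply Continuous.intervalIntegrable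
      exact (Ph_cont s).mul (by fun_prop)
    have h1 := Complex.reCLM.intervalIntegral_comp_comm hi
    simp only [Complex.reCLM_apply] at h1
    rw [h1, h]
    simp
  have i1 : IntervalIntegrable (fun u : ℝ => 1 / 4 * exp (-(V / 2) * u ^ 2)) volume (-π) π := by
    apply Continuous.intervalIntegrable
    fun_prop
  have i2 : IntervalIntegrable (fun u : ℝ => 2 * exp (-10) * exp (-(b * V / 2) * u ^ 2)) volume
      (-π) π := by
    apply Continuous.intervalIntegrable
    fun_prop
  have h1 : ∫ u in (-π)..π, (1 / 4 * exp (-(V / 2) * u ^ 2) -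
      2 * exp (-10) * exp (-(b * V / 2) * u ^ 2)) ≤ P * (2 * π) := by
    rw [hre]
    apply intervalIntegral.integral_mono_on (by linarith) (i1.sub i2)
    · apply Continuous.intervalIntegrable
      exact Complex.continuous_re.comp ((Ph_cont s).mul (by fun_prop))
    · intro u hu
      exact key u (abs_le.2 ⟨hu.1, hu.2⟩)
  rw [intervalIntegral.integral_sub i1 i2, intervalIntegral.integral_const_mul,
    intervalIntegral.integral_const_mul] at h1
  have h2 : 1 / √V ≤ ∫ u in (-π)..π, exp (-(V / 2) * u ^ 2) := by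
    have hsm : 1 / √V ≤ 1 := (div_le_one hq).2 (by linarith)
    have h3 : ∫ u in (-(1 / √V))..(1 / √V), exp (-(V / 2) * u ^ 2) ≤
        ∫ u in (-π)..π, exp (-(V / 2) * u ^ 2) := by
      apply intervalIntegral.integral_mono_interval (by linarith) (by
        have : 0 < 1 / √V := by positivity
        linarith) (by linarith)
      · exact Eventually.of_forall fun u => (exp_pos _).le
      · apply Continuous.intervalIntegrable
        fun_prop
    have h4 : ∫ u in (-(1 / √V))..(1 / √V), (1 / 2 : ℝ) ≤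
        ∫ u in (-(1 / √V))..(1 / √V), exp (-(V / 2) * u ^ 2) := by
      apply intervalIntegral.integral_mono_on (by
        have : 0 < 1 / √V := by positivity
        linarith)
      · exact intervalIntegrable_const
      · apply Continuous.intervalIntegrable
        fun_prop
      · intro u hu
        have h5 : u ^ 2 ≤ 1 / V := by
          have : |u| ≤ 1 / √V := abs_le.2 ⟨hu.1, hu.2⟩
          rw [← sq_abs]
          calc |u| ^ 2 ≤ (1 / √V) ^ 2 := pow_le_pow_left₀ (abs_nonneg _) this 2
            _ = 1 / V := by rw [div_pow, hqq]; norm_num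
        have h6 : V / 2 * u ^ 2 ≤ 1 / 2 := by
          calc V / 2 * u ^ 2 ≤ V / 2 * (1 / V) := mul_le_mul_of_nonneg_left h5 (by positivity)
            _ = 1 / 2 := by field_simp
        have h7 := add_one_le_exp (-(V / 2) * u ^ 2)
        linarith
    rw [intervalIntegral.integral_const, smul_eq_mul] at h4
    have e : (1 / √V - -(1 / √V)) * (1 / 2) = 1 / √V := by ring
    rw [e] at h4
    exact h4.trans h3
  have h3 : ∫ u in (-π)..π, exp (-(b * V / 2) * u ^ 2) ≤ 6 * (1 / √V) := by
    have hbb : 0 < b * V / 2 := by positivity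
    have h4 : ∫ u in (-π)..π, exp (-(b * V / 2) * u ^ 2) ≤ √(π / (b * V / 2)) := by
      rw [← integral_gaussian, intervalIntegral.integral_of_le (by linarith)]
      apply setIntegral_le_integral (integrable_exp_neg_mul_sq hbb)
      exact Eventually.of_forall fun u => (exp_pos _).le
    refine h4.trans ?_
    have e : π / (b * V / 2) = π ^ 3 / V := by
      rw [hb]
      field_simp
    rw [e, sqrt_div (by positivity), mul_one_div]
    apply div_le_div_of_nonneg_right _ hq.le
    rw [sqrt_le_left (by norm_num)]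
    have : π ^ 3 ≤ 3.15 ^ 3 := pow_le_pow_left₀ hpi.le hpi4.le 3
    norm_num at this ⊢
    linarith
  have h4 : exp (-10) ≤ 1 / 1024 := exp10
  have hsv : 0 < 1 / √V := by positivity
  have h5 : 2 * exp (-10) * ∫ u in (-π)..π, exp (-(b * V / 2) * u ^ 2) ≤
      2 * (1 / 1024) * (6 * (1 / √V)) := by
    apply mul_le_mul (by linarith) h3 _ (by norm_num)
    apply intervalIntegral.integral_nonneg (by linarith)
    intro u _
    exact (exp_pos _).le
  have h6 : (1 / 5) * (1 / √V) ≤ P * (2 * π) := by linarith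
  have h7 : 1 / (100 * √V) * (2 * π) ≤ P * (2 * π) := by
    refine le_trans ?_ h6
    have e : 1 / (100 * √V) * (2 * π) = (2 * π / 100) * (1 / √V) := by
      field_simp
    rw [e]
    apply mul_le_mul_of_nonneg_right _ hsv.le
    linarith
  exact le_of_mul_le_mul_right h7 (by positivity)

end Pool.Agent.H450R4.NL
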