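import Pool.Agent.H450R4.NLMain
import Pool.Agent.H450R4.NLLoc

/-!
Sharp tails of the number of loops on the cylinder.
-/

namespace Pool.Agent.H450R4.NL
open Pool.Agent.H863R2.NL Pool.Agent.H863R2.NL.PowAux Pool.Agent.H863R2.NL.PsSumAux
  Pool.Agent.H863R2.NL.IntAux Real MeasureTheory Filter Topology H974
open Pool.Agent.H863R2.Cyl (Wd)
open Pool.Agent.H160R2.OA (J IsMu)

theorem ps_all : ∃ ps : ℕ → Multiset ℝ, (∀ n, 1 ≤ n → IsPs n (ps n)) ∧
    ∀ H H' : ℝ → ℝ, (∀ p, 0 ≤ p → p ≤ 1 / 3 → HasDerivAt H (H' p) p) →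
      ContinuousOn H' (Set.Icc 0 (1 / 3)) → H 0 = 0 → ∃ C : ℝ, ∀ n : ℕ, 1 ≤ n →
      |((ps n).map H).sum - (3 / (4 * π ^ 2) * (∫ x, H (1 / (2 * Real.cosh x + 1)))) * log n| ≤ C := by
  classical
  have hex : ∀ n : ℕ, ∃ s : Multiset ℝ, 1 ≤ n → IsPs n s ∧
      ∃ (hJ : (J (2 * n)).IsHermitian) (ν : Fin (2 * n) → ℝ), IsMu (2 * n) hJ ν ∧
      ∀ g : ℝ → ℝ, 2 * (s.map g).sum =
        ∑ i, g (1 / (2 * Real.cosh (Real.log (ν i)) + 1)) := by
    intro n
    by_cases hn : 1 ≤ n
    · obtain ⟨s, h1, h2, h3⟩ := bern hn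
      exact ⟨s, fun _ => ⟨⟨h1, h2⟩, h3⟩⟩
    · exact ⟨0, fun h => absurd h hn⟩
  choose ps hps using hex
  refine ⟨ps, fun n hn => (hps n hn).1, ?_⟩
  intro H H' h1 h2 h3
  exact gen ps (fun n hn => (hps n hn).2) H H' h1 h2 h3 _ rfl

/-- tilted parameter -/
noncomputable def qt (t p : ℝ) : ℝ := p * t / (1 + p * (t - 1))

theorem qt_mem {t p : ℝ} (ht0 : 0 < t) (ht1 : t ≤ 1) (hp0 : 0 < p) (hp1 : p ≤ 1 / 3) :
    0 < qt t p ∧ qt t p ≤ 1 / 3 := by
  have h := PsSumAux.log_pos ht0 hp0.le hp1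
  unfold qt
  constructor
  · positivity
  · rw [div_le_iff₀ h]
    nlinarith

theorem qt_ge {t p : ℝ} (ht0 : 0 < t) (ht1 : t ≤ 1) (hp0 : 0 < p) (hp1 : p ≤ 1 / 3) :
    t * p ≤ qt t p := by
  have h := PsSumAux.log_pos ht0 hp0.le hp1
  unfold qt
  rw [le_div_iff₀ h]
  have h2 : 0 < t * p := by positivity
  have h3 : 1 + p * (t - 1) ≤ 1 := by
    have : p * (t - 1) ≤ 0 := mul_nonpos_of_nonneg_of_nonpos hp0.le (by linarith)
    linarith
  calc t * p * (1 + p * (t - 1)) ≤ t * p * 1 := mul_le_mul_of_nonneg_left h3 h2.le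
    _ = p * t := by ring

theorem qt_fac {t p : ℝ} (ht0 : 0 < t) (hp0 : 0 < p) (hp1 : p ≤ 1 / 3) (z : ℂ) :
    1 + (p : ℂ) * ((t : ℂ) * z - 1) =
      ((1 + p * (t - 1) : ℝ) : ℂ) * (1 + ((qt t p : ℝ) : ℂ) * (z - 1)) := by
  have h := (PsSumAux.log_pos ht0 hp0.le hp1).ne'
  have h' : ((1 + p * (t - 1) : ℝ) : ℂ) ≠ 0 := by exact_mod_cast h
  unfold qt
  push_cast at h' ⊢
  field_simp
  ring

/-- the tilted sum and the exponent -/
theorem tilt_conv {t h p : ℝ} (ht0 : 0 < t) (ht1 : t ≤ 1) (hp0 : 0 < p) (hp1 : p ≤ 1 / 3) :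
    log (1 + p * (t - 1)) + h * qt t p ≤ log (1 + p * (t * exp h - 1)) := by
  have h1 := PsSumAux.log_pos ht0 hp0.le hp1
  have hq := qt_mem ht0 ht1 hp0 hp1
  have e : 1 + p * (t * exp h - 1) = (1 + p * (t - 1)) * (1 + qt t p * (exp h - 1)) := by
    unfold qt
    field_simp
    ring
  have h2 : exp (h * qt t p) ≤ 1 + qt t p * (exp h - 1) := by
    have := convexOn_exp.2 (Set.mem_univ h) (Set.mem_univ 0) hq.1.le
      (show 0 ≤ 1 - qt t p by linarith [hq.2]) (by ring)
    simp only [smul_eq_mul, mul_zero, add_zero, exp_zero, mul_one] at this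
    rw [mul_comm h]
    linarith
  rw [e, log_mul h1.ne' (lt_of_lt_of_le (exp_pos _) h2).ne']
  have h3 : h * qt t p ≤ log (1 + qt t p * (exp h - 1)) := by
    have := log_le_log (exp_pos _) h2
    rwa [log_exp] at this
  linarith

theorem msum_le {f g : ℝ → ℝ} (s : Multiset ℝ) (h : ∀ p ∈ s, f p ≤ g p) :
    (s.map f).sum ≤ (s.map g).sum := Multiset.sum_map_le_sum_map f g h

theorem msum_add (s : Multiset ℝ) (f g : ℝ → ℝ) :
    (s.map (fun p => f p + g p)).sum = (s.map f).sum + (s.map g).sum := Multiset.sum_map_add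

theorem msum_mul (s : Multiset ℝ) (c : ℝ) (g : ℝ → ℝ) :
    (s.map (fun p => c * g p)).sum = c * (s.map g).sum := Multiset.sum_map_mul_left

/-- the sums for a fixed tilt -/
theorem ps_tilt {θ : ℝ} (h0 : π / 3 < θ) (h1 : θ < π / 2) :
    ∃ (ps : ℕ → Multiset ℝ) (C : ℝ), 0 ≤ C ∧ ∀ n : ℕ, 1 ≤ n → IsPs n (ps n) ∧
      |((ps n).map (fun p => log (1 + p * (2 * cos θ - 1)))).sum - psi (2 * cos θ) * log n| ≤ C ∧
      |(ps n).sum - cN * log n| ≤ C ∧
      |((ps n).map (qt (2 * cos θ))).sum -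
        3 / (2 * π ^ 2) * (θ * cos θ / sin θ) * log n| ≤ C := by
  obtain ⟨ps, hps, hH⟩ := ps_all
  have hpi := pi_pos
  have hc : 0 < cos θ := cos_pos_of_mem_Ioo ⟨by linarith, h1⟩
  have hc1 : cos θ < 1 / 2 := by
    have h2 := cos_lt_cos_of_nonneg_of_le_pi_div_two (by positivity : (0 : ℝ) ≤ π / 3) h1.le h0
    rwa [cos_pi_div_three] at h2
  -- logarithms
  have hlogs : ∀ t : ℝ, 0 < t → t < 2 → ∃ C : ℝ, ∀ n : ℕ, 1 ≤ n →
      |((ps n).map (fun p => log (1 + p * (t - 1)))).sum - psi t * log n| ≤ C := by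
    intro t ht0 ht2
    obtain ⟨C, hC⟩ := hH (fun p => log (1 + p * (t - 1)))
      (fun p => (t - 1) / (1 + p * (t - 1)))
      (fun p h1 h2 => by
        have h3 := PsSumAux.log_pos ht0 h1 h2
        have h4 : HasDerivAt (fun p : ℝ => 1 + p * (t - 1)) (1 * (t - 1)) p :=
          ((hasDerivAt_id p).mul_const (t - 1)).const_add 1
        refine (h4.log h3.ne').congr_deriv ?_
        ring)
      (by
        apply ContinuousOn.div
        · fun_prop
        · fun_prop
        · intro p hp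
          exact (PsSumAux.log_pos ht0 hp.1 hp.2).ne')
      (by simp)
    refine ⟨C, fun n hn => ?_⟩
    have h2 := hC n hn
    rw [int_log ht0 ht2] at h2
    exact h2
  obtain ⟨C2, hC2⟩ := hH (fun p => p) (fun _ => 1) (fun p _ _ => hasDerivAt_id p) continuousOn_const rfl
  set t : ℝ := 2 * cos θ with ht
  have ht0 : 0 < t := by linarith
  have ht1 : t ≤ 1 := by linarith
  obtain ⟨C3, hC3⟩ := hH (qt t) (fun p => t / (1 + p * (t - 1)) ^ 2)
    (fun p h1 h2 => by
      have h3 := PsSumAux.log_pos ht0 h1 h2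
      have h4 : HasDerivAt (fun p : ℝ => 1 + p * (t - 1)) (1 * (t - 1)) p :=
        ((hasDerivAt_id p).mul_const (t - 1)).const_add 1
      have h5 : HasDerivAt (fun p : ℝ => p * t) (1 * t) p := (hasDerivAt_id p).mul_const t
      refine (h5.div h4 h3.ne').congr_deriv ?_
      congr 1
      ring)
    (by
      apply ContinuousOn.div
      · fun_prop
      · fun_prop
      · intro p hp
        exact (pow_pos (PsSumAux.log_pos ht0 hp.1 hp.2) 2).ne')
    (by simp [qt])
  set κ : ℝ := 3 / (4 * π ^ 2) * (∫ x, qt t (1 / (2 * Real.cosh x + 1))) with hκ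
  obtain ⟨C1, hC1⟩ := hlogs t ht0 (by linarith)
  have hlog : Tendsto (fun n : ℕ => log (n : ℝ)) atTop atTop :=
    tendsto_log_atTop.comp tendsto_natCast_atTop_atTop
  -- identification of κ
  have hκe : κ = 3 / (2 * π ^ 2) * (θ * cos θ / sin θ) := by
    have hineq : ∀ h : ℝ, t * exp h < 2 → psi t + h * κ ≤ psi (t * exp h) := by
      intro h hh
      obtain ⟨C4, hC4⟩ := hlogs (t * exp h) (by positivity) hh
      by_contra hcon
      push Not at hcon
      have hd : 0 < psi t + h * κ - psi (t * exp h) := by linarith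
      have hev := (hlog.const_mul_atTop hd).eventually_gt_atTop (C1 + |h| * C3 + C4)
      obtain ⟨n, hn1, hn2⟩ := (hev.and (eventually_ge_atTop 1)).exists
      have k1 := (abs_le.1 (hC1 n hn2)).1
      have k3 : |h * (((ps n).map (qt t)).sum - κ * log n)| ≤ |h| * C3 := by
        rw [abs_mul]
        exact mul_le_mul_of_nonneg_left (hC3 n hn2) (abs_nonneg _)
      have k3' := (abs_le.1 k3).1
      have k4 := (abs_le.1 (hC4 n hn2)).2
      have k5 : ((ps n).map (fun p => log (1 + p * (t - 1)))).sum + h * ((ps n).map (qt t)).sum ≤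
          ((ps n).map (fun p => log (1 + p * (t * exp h - 1)))).sum := by
        rw [← msum_mul, ← msum_add]
        apply msum_le
        intro p hp
        have hp' := (hps n hn2).1 p hp
        exact tilt_conv ht0 ht1 hp'.1 hp'.2
      nlinarith
    have hd := deriv_L (θ := θ) (by linarith) h1
    rw [← ht] at hd
    set a : ℝ := 3 / (2 * π ^ 2) * (θ * cos θ / sin θ)
    have hd2 : HasDerivAt (fun s : ℝ => psi (exp s) - s * κ) (a - 1 * κ) (log t) :=
      hd.sub ((hasDerivAt_id _).mul_const κ)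
    have hmin : IsLocalMin (fun s : ℝ => psi (exp s) - s * κ) (log t) := by
      have hnb : ∀ᶠ s in 𝓝 (log t), exp s < 2 := by
        apply (continuous_exp.tendsto (log t)).eventually_lt_const
        rw [exp_log ht0]
        linarith
      filter_upwards [hnb] with s hs
      have e : t * exp (s - log t) = exp s := by
        rw [exp_sub, exp_log ht0]
        field_simp
      have h2 := hineq (s - log t) (by rw [e]; exact hs)
      rw [e] at h2
      show psi (exp (log t)) - log t * κ ≤ psi (exp s) - s * κ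
      rw [exp_log ht0]
      linarith
    have := hmin.hasDerivAt_eq_zero hd2
    linarith
  refine ⟨ps, max C1 (max C2 C3), ?_, ?_⟩
  · exact ((abs_nonneg _).trans (hC1 1 le_rfl)).trans (le_max_left _ _)
  · intro n hn
    refine ⟨hps n hn, (hC1 n hn).trans (le_max_left _ _), ?_, ?_⟩
    · have h2 := hC2 n hn
      have e : 3 / (4 * π ^ 2) * (∫ x, 1 / (2 * Real.cosh x + 1)) = cN := by
        rw [int_p]
        unfold cN
        field_simp
        ring
      rw [e, Multiset.map_id'] at h2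
      exact h2.trans ((le_max_left _ _).trans (le_max_right _ _))
    · rw [← hκe]
      exact (hC3 n hn).trans ((le_max_right _ _).trans (le_max_right _ _))

end Pool.Agent.H450R4.NL
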