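import Pool.Agent.H450R4.NLCyl

/-!
Sharp tails of the number of loops on the cylinder: local estimates under the tilted law.
-/

namespace Pool.Agent.H450R4.NL
open Pool.Agent.H863R2.NL Pool.Agent.H863R2.NL.PowAux Real MeasureTheory Filter Topology H974
open Pool.Agent.H863R2.Cyl (Wd)

/-- the characteristic function of the tilted law -/
theorem tilt_char {n : ℕ} {s : Multiset ℝ} (hs : IsPs n s) {t : ℝ} (ht0 : 0 < t) (u : ℝ) :
    ∑ x : Wd (2 * n - 1 + 1) × Wd (2 * n - 1 + 1),
      ((mu n x.1 * mu n x.2 * t ^ fN x.1.1 x.2.1 / EN n (fun m => t ^ m) : ℝ) : ℂ) *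
        Complex.exp (fN x.1.1 x.2.1 * (u * Complex.I)) = Ph (s.map (qt t)) u := by
  have hZ : EN n (fun m => t ^ m) = (s.map (fun p => 1 + p * (t - 1))).prod := PsSumAux.real_id hs t
  have hZ0 : EN n (fun m => t ^ m) ≠ 0 := by
    rw [hZ]
    apply Multiset.prod_ne_zero
    intro h
    obtain ⟨p, hp, h2⟩ := Multiset.mem_map.1 h
    exact (PsSumAux.log_pos ht0 (hs.1 p hp).1.le (hs.1 p hp).2).ne' h2
  have hZc : ((EN n (fun m => t ^ m) : ℝ) : ℂ) ≠ 0 := by exact_mod_cast hZ0
  have h1 := hs.2 ((t : ℂ) * Complex.exp (u * Complex.I))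
  have h2 : (s.map (fun p : ℝ => 1 + (p : ℂ) * ((t : ℂ) * Complex.exp (u * Complex.I) - 1))).prod =
      ((EN n (fun m => t ^ m) : ℝ) : ℂ) * Ph (s.map (qt t)) u := by
    rw [hZ]
    unfold Ph
    rw [Multiset.map_map]
    have e1 : ((((s.map (fun p => 1 + p * (t - 1))).prod : ℝ)) : ℂ) =
        (s.map (fun p : ℝ => ((1 + p * (t - 1) : ℝ) : ℂ))).prod := by
      have e1' : (((s.map (fun p => 1 + p * (t - 1))).prod : ℝ) : ℂ) =
        Complex.ofRealHom (s.map (fun p => 1 + p * (t - 1))).prod := rfl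
      rw [e1', map_multiset_prod, Multiset.map_map]
      rfl
    rw [e1, ← Multiset.prod_map_mul]
    congr 1
    apply Multiset.map_congr rfl
    intro p hp
    exact qt_fac ht0 (hs.1 p hp).1 (hs.1 p hp).2 _
  rw [h2] at h1
  have h3 : ((EN n (fun m => t ^ m) : ℝ) : ℂ) *
      ∑ x : Wd (2 * n - 1 + 1) × Wd (2 * n - 1 + 1),
      ((mu n x.1 * mu n x.2 * t ^ fN x.1.1 x.2.1 / EN n (fun m => t ^ m) : ℝ) : ℂ) *
        Complex.exp (fN x.1.1 x.2.1 * (u * Complex.I)) =
      ((EN n (fun m => t ^ m) : ℝ) : ℂ) * Ph (s.map (qt t)) u := by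
    rw [← h1, Finset.mul_sum, Fintype.sum_prod_type]
    apply Finset.sum_congr rfl
    intro σ _
    apply Finset.sum_congr rfl
    intro τ _
    rw [mul_pow, ← Complex.exp_nat_mul]
    push_cast
    field_simp
  exact mul_left_cancel₀ hZc h3

/-- local bounds for the tilted law on the cylinder -/
theorem tilt_coef {n : ℕ} {s : Multiset ℝ} (hs : IsPs n s) {t : ℝ} (ht0 : 0 < t) (k : ℕ) :
    ∫ u in (-π)..π, Ph (s.map (qt t)) u * Complex.exp (-(k * (u * Complex.I))) =
      ((EN n (fun m => if m = k then t ^ m else 0) / EN n (fun m => t ^ m) : ℝ) : ℂ) * (2 * π) := by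
  rw [coef _ _ _ (tilt_char hs ht0) k]
  congr 2
  have hnum : EN n (fun m => if m = k then t ^ m else 0) =
      ∑ σ : Wd (2 * n - 1 + 1), ∑ τ : Wd (2 * n - 1 + 1),
        mu n σ * mu n τ * (if fN σ.1 τ.1 = k then t ^ fN σ.1 τ.1 else 0) := rfl
  generalize EN n (fun m => t ^ m) = Z
  rw [hnum, Finset.sum_div, Fintype.sum_prod_type]
  apply Finset.sum_congr rfl
  intro σ _
  rw [Finset.sum_div]
  apply Finset.sum_congr rfl
  intro τ _
  simp only
  split_ifs with h
  · ring
  · simp

theorem cyl {θ : ℝ} (h0 : π / 3 < θ) (h1 : θ < π / 2) :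
    (∃ C : ℝ, 0 < C ∧ ∀ᶠ n : ℕ in atTop, ∀ k : ℕ,
      EN n (fun m => if m = k then (2 * cos θ) ^ m else 0) ≤
        C * ((n : ℝ) ^ psi (2 * cos θ) / √(log n))) ∧
    (∀ D : ℝ, 0 ≤ D → ∃ c : ℝ, 0 < c ∧ ∀ᶠ n : ℕ in atTop, ∀ k : ℕ,
      |3 / (2 * π ^ 2) * (θ * cos θ / sin θ) * log n - k| ≤ D →
      c * ((n : ℝ) ^ psi (2 * cos θ) / √(log n)) ≤
        EN n (fun m => if m = k then (2 * cos θ) ^ m else 0)) := by
  obtain ⟨ps, C, hC, hps⟩ := ps_tilt h0 h1
  have hpi := pi_pos
  have hcN := cN_pos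
  have hcos : 0 < cos θ := cos_pos_of_mem_Ioo ⟨by linarith, h1⟩
  have hsin : 0 < sin θ := sin_pos_of_pos_of_lt_pi (by linarith) (by linarith)
  have hc1 : cos θ < 1 / 2 := by
    have h2 := cos_lt_cos_of_nonneg_of_le_pi_div_two (by positivity : (0 : ℝ) ≤ π / 3) h1.le h0
    rwa [cos_pi_div_three] at h2
  set t : ℝ := 2 * cos θ with ht
  set a : ℝ := 3 / (2 * π ^ 2) * (θ * cos θ / sin θ) with ha
  have hθ0 : 0 < θ := by linarith
  have ha0 : 0 < a := by positivity
  have ht0 : 0 < t := by linarith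
  have ht1 : t ≤ 1 := by linarith
  have hlog : Tendsto (fun n : ℕ => log (n : ℝ)) atTop atTop :=
    tendsto_log_atTop.comp tendsto_natCast_atTop_atTop
  -- the parameters of the tilted law
  have hS : ∀ n, 1 ≤ n → ∀ q ∈ (ps n).map (qt t), 0 < q ∧ q ≤ 1 / 3 := by
    intro n hn q hq
    obtain ⟨p, hp, rfl⟩ := Multiset.mem_map.1 hq
    exact qt_mem ht0 ht1 ((hps n hn).1.1 p hp).1 ((hps n hn).1.1 p hp).2
  have hV1 : ∀ n, 1 ≤ n → 2 / 3 * ((ps n).map (qt t)).sum ≤
      (((ps n).map (qt t)).map (fun q => q * (1 - q))).sum := by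
    intro n hn
    rw [← Multiset.sum_map_mul_left, Multiset.map_map]
    apply msum_le
    intro p hp
    have hq := qt_mem ht0 ht1 ((hps n hn).1.1 p hp).1 ((hps n hn).1.1 p hp).2
    simp only [Function.comp_apply]
    nlinarith
  have hV2 : ∀ n, 1 ≤ n → (((ps n).map (qt t)).map (fun q => q * (1 - q))).sum ≤
      ((ps n).map (qt t)).sum := by
    intro n hn
    rw [Multiset.map_map]
    apply msum_le
    intro p hp
    have hq := qt_mem ht0 ht1 ((hps n hn).1.1 p hp).1 ((hps n hn).1.1 p hp).2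
    simp only [Function.comp_apply]
    nlinarith
  have hZ : ∀ n : ℕ, 1 ≤ n → exp (-C) * (n : ℝ) ^ psi t ≤ EN n (fun m => t ^ m) ∧
      EN n (fun m => t ^ m) ≤ exp C * (n : ℝ) ^ psi t := by
    intro n hn
    have k1 := (hps n hn).2.1
    have e : EN n (fun m => t ^ m) = exp ((ps n).map (fun p => log (1 + p * (t - 1)))).sum := by
      rw [PsSumAux.real_id (hps n hn).1, exp_multiset_sum, Multiset.map_map]
      congr 1
      apply Multiset.map_congr rfl
      intro p hp
      simp only [Function.comp_apply]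
      rw [exp_log (PsSumAux.log_pos ht0 ((hps n hn).1.1 p hp).1.le ((hps n hn).1.1 p hp).2)]
    rw [e, ← expL hn, ← exp_add, ← exp_add]
    have k2 := abs_le.1 k1
    constructor
    · apply exp_le_exp.2
      linarith [k2.1]
    · apply exp_le_exp.2
      linarith [k2.2]
  constructor
  · refine ⟨exp C * (2 / √a), by positivity, ?_⟩
    filter_upwards [hlog.eventually_ge_atTop (2 * C / a + 1), eventually_ge_atTop 1] with n hL hn
    intro k
    set L : ℝ := log n
    have hL0 : 0 < L := by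
      have : 0 ≤ 2 * C / a := by positivity
      linarith
    set V : ℝ := (((ps n).map (qt t)).map (fun q => q * (1 - q))).sum with hV
    have hVL : a / 4 * L ≤ V := by
      have k1 := hV1 n hn
      have k2 := (abs_le.1 (hps n hn).2.2.2).1
      have k3 : 2 * C ≤ a * L := by
        have : 2 * C / a ≤ L := by linarith
        rw [div_le_iff₀ ha0] at this
        linarith
      have k4 : a * L / 2 ≤ ((ps n).map (qt t)).sum := by linarith
      nlinarith
    have hV0 : 0 < V := lt_of_lt_of_le (by positivity) hVL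
    have k5 := loc_upper (hS n hn) hV hV0 (tilt_coef (hps n hn).1 ht0 k)
    have hZp : 0 < EN n (fun m => t ^ m) := lt_of_lt_of_le (by positivity) (hZ n hn).1
    rw [div_le_iff₀ hZp] at k5
    refine k5.trans ?_
    have k6 : 1 / √V ≤ 2 / √a * (1 / √L) := by
      have k7 : √(a / 4 * L) ≤ √V := sqrt_le_sqrt hVL
      have k8 : √(a / 4 * L) = √a / 2 * √L := by
        rw [show a / 4 * L = a * L / 2 ^ 2 by ring, sqrt_div (by positivity), sqrt_sq (by norm_num),
          sqrt_mul ha0.le]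
        ring
      have k9 : 0 < √a / 2 * √L := by positivity
      rw [k8] at k7
      calc 1 / √V ≤ 1 / (√a / 2 * √L) := one_div_le_one_div_of_le k9 k7
        _ = _ := by field_simp
    calc 1 / √V * EN n (fun m => t ^ m) ≤ (2 / √a * (1 / √L)) * (exp C * (n : ℝ) ^ psi t) :=
          mul_le_mul k6 (hZ n hn).2 hZp.le (by positivity)
      _ = _ := by ring
  · intro D hD
    obtain ⟨V0, hV0⟩ := loc_lower (c := 3 / 2) (C0 := D + C) (by norm_num) (by linarith)
    refine ⟨exp (-C) * (1 / (100 * √(2 * a))), by positivity, ?_⟩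
    filter_upwards [hlog.eventually_ge_atTop (2 * C / a + 1), eventually_ge_atTop 1,
      hlog.eventually_ge_atTop (4 * V0 / a)] with n hL hn hL2
    intro k hk
    set L : ℝ := log n
    have hL0 : 0 < L := by
      have : 0 ≤ 2 * C / a := by positivity
      linarith
    set V : ℝ := (((ps n).map (qt t)).map (fun q => q * (1 - q))).sum with hV
    have k2 := abs_le.1 (hps n hn).2.2.2
    have k3 : 2 * C ≤ a * L := by
      have : 2 * C / a ≤ L := by linarith
      rw [div_le_iff₀ ha0] at this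
      linarith
    have hVL : a / 4 * L ≤ V := by
      have k1 := hV1 n hn
      have k4 : a * L / 2 ≤ ((ps n).map (qt t)).sum := by linarith [k2.1]
      nlinarith
    have hVU : V ≤ 2 * a * L := by
      have := hV2 n hn
      nlinarith [k2.2]
    have hVV0 : V0 ≤ V := by
      refine le_trans ?_ hVL
      rw [div_le_iff₀ ha0] at hL2
      linarith
    have k4 : ((ps n).map (qt t)).sum ≤ 3 / 2 * V := by
      have := hV1 n hn
      linarith
    have k5 : |((ps n).map (qt t)).sum - k| ≤ D + C := by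
      calc |((ps n).map (qt t)).sum - k| = |(((ps n).map (qt t)).sum - a * L) + (a * L - k)| := by
            congr 1; ring
        _ ≤ |((ps n).map (qt t)).sum - a * L| + |a * L - k| := abs_add_le _ _
        _ ≤ D + C := by linarith [(hps n hn).2.2.2]
    have k6 := hV0 _ (hS n hn) V hV hVV0 k4 k k5 _ (tilt_coef (hps n hn).1 ht0 k)
    have hZp : 0 < EN n (fun m => t ^ m) := lt_of_lt_of_le (by positivity) (hZ n hn).1
    rw [le_div_iff₀ hZp] at k6
    refine le_trans ?_ k6
    have hVp : 0 < V := lt_of_lt_of_le (by positivity) hVL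
    have k7 : 1 / (100 * √(2 * a)) * (1 / √L) ≤ 1 / (100 * √V) := by
      have k8 : √V ≤ √(2 * a) * √L := by
        rw [← sqrt_mul (by positivity)]
        exact sqrt_le_sqrt hVU
      have k9 : 0 < √V := sqrt_pos.2 hVp
      calc 1 / (100 * √(2 * a)) * (1 / √L) = 1 / (100 * (√(2 * a) * √L)) := by field_simp
        _ ≤ 1 / (100 * √V) := one_div_le_one_div_of_le (by positivity) (by linarith)
    calc exp (-C) * (1 / (100 * √(2 * a))) * ((n : ℝ) ^ psi t / √L) =
        (1 / (100 * √(2 * a)) * (1 / √L)) * (exp (-C) * (n : ℝ) ^ psi t) := by ring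
      _ ≤ 1 / (100 * √V) * EN n (fun m => t ^ m) :=
          mul_le_mul k7 (hZ n hn).1 (by positivity) (by positivity)

end Pool.Agent.H450R4.NL
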