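import Pool.Agent.H450R4.NLMom

/-!
Critical bond percolation on the square lattice: almost sure law of large numbers with rate, mean and
large deviations of the number of nested layers around the origin.
-/

namespace Pool.Agent.H450R4.NL
open Pool.Agent.H863R2.NL Pool.Agent.H863R2.NL.PowAux Real MeasureTheory Filter Topology H974

theorem anti_xcot : StrictAntiOn (fun θ : ℝ => θ * cos θ / sin θ) (Set.Ioo 0 (π / 2)) := by
  have hd : ∀ x ∈ Set.Ioo (0 : ℝ) (π / 2), HasDerivAt (fun θ : ℝ => θ * cos θ / sin θ)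
      (((1 * cos x + x * (-sin x)) * sin x - x * cos x * cos x) / sin x ^ 2) x := by
    intro x hx
    have hs : sin x ≠ 0 := (sin_pos_of_pos_of_lt_pi hx.1 (by linarith [hx.2, pi_pos])).ne'
    exact ((hasDerivAt_id x).mul (hasDerivAt_cos x)).div (hasDerivAt_sin x) hs
  apply strictAntiOn_of_deriv_neg (convex_Ioo _ _)
  · intro x hx
    exact (hd x hx).continuousAt.continuousWithinAt
  · intro x hx
    rw [interior_Ioo] at hx
    rw [(hd x hx).deriv]
    have hs : 0 < sin x := sin_pos_of_pos_of_lt_pi hx.1 (by linarith [hx.2, pi_pos])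
    have hs1 : sin x < x := sin_lt hx.1
    have hc : cos x ≤ 1 := cos_le_one x
    have h1 := sin_sq_add_cos_sq x
    apply div_neg_of_neg_of_pos _ (by positivity)
    have e : (1 * cos x + x * (-sin x)) * sin x - x * cos x * cos x =
        cos x * sin x - x * (sin x ^ 2 + cos x ^ 2) := by ring
    rw [e, h1]
    nlinarith

theorem psi_cos {θ : ℝ} (h0 : 0 < θ) (h1 : θ < π / 2) :
    psi (2 * cos θ) = 3 / (4 * π ^ 2) * (π ^ 2 / 9 - θ ^ 2) := by
  unfold psi
  rw [mul_div_cancel_left₀ _ (by norm_num : (2 : ℝ) ≠ 0), arccos_cos h0.le (by linarith [pi_pos])]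

theorem deriv_L {θ : ℝ} (h0 : 0 < θ) (h1 : θ < π / 2) :
    HasDerivAt (fun s : ℝ => psi (exp s)) (3 / (2 * π ^ 2) * (θ * cos θ / sin θ))
      (log (2 * cos θ)) := by
  have hc : 0 < cos θ := cos_pos_of_mem_Ioo ⟨by linarith, h1⟩
  have hs : 0 < sin θ := sin_pos_of_pos_of_lt_pi h0 (by linarith [pi_pos])
  have hc1 : cos θ < 1 := by
    have := cos_lt_cos_of_nonneg_of_le_pi_div_two le_rfl h1.le h0
    rwa [cos_zero] at this
  have e0 : exp (log (2 * cos θ)) = 2 * cos θ := exp_log (by linarith)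
  have e1 : exp (log (2 * cos θ)) / 2 = cos θ := by rw [e0]; ring
  have d1 : HasDerivAt (fun s : ℝ => exp s / 2) (cos θ) (log (2 * cos θ)) := by
    have := (hasDerivAt_exp (log (2 * cos θ))).div_const 2
    rwa [e1] at this
  have d2 : HasDerivAt arccos (-(1 / √(1 - cos θ ^ 2))) (exp (log (2 * cos θ)) / 2) := by
    rw [e1]
    exact hasDerivAt_arccos (by linarith) hc1.ne
  have hsq : √(1 - cos θ ^ 2) = sin θ := by
    rw [← sin_sq, sqrt_sq hs.le]
  rw [hsq] at d2
  have d3 := d2.comp (log (2 * cos θ)) d1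
  have d4 := ((d3.pow 2).const_sub (π ^ 2 / 9)).const_mul (3 / (4 * π ^ 2))
  have e2 : arccos (exp (log (2 * cos θ)) / 2) = θ := by
    rw [e1]
    exact arccos_cos h0.le (by linarith [pi_pos])
  have e3 : 3 / (4 * π ^ 2) * -(((2 : ℕ) : ℝ) * (arccos ∘ fun s : ℝ => exp s / 2)
      (log (2 * cos θ)) ^ (2 - 1) * (-(1 / sin θ) * cos θ)) =
      3 / (2 * π ^ 2) * (θ * cos θ / sin θ) := by
    rw [Function.comp_apply, e2]
    push_cast
    field_simp
    ring
  rw [e3] at d4
  exact d4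

theorem int_pow (n : ℕ) (s : ℝ) :
    ∫ ω, exp (s * (changes n ω : ℝ)) ∂(bondLaw hlf) = ET n (fun m => exp s ^ m) := by
  have h := int_changes n (fun m => exp (s * (m : ℝ)))
  rw [h]
  congr 1
  funext m
  rw [← exp_nat_mul, mul_comm]

theorem changes_le (n : ℕ) (ω : sqLattice.edgeSet → Bool) : changes n ω ≤ 2 * n := by
  rw [changes_eq]
  exact TT_le_two _ n

theorem expL {t : ℝ} {n : ℕ} (hn : 1 ≤ n) : exp (psi t * log n) = (n : ℝ) ^ psi t := by
  rw [rpow_def_of_pos (by exact_mod_cast hn), mul_comm]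

theorem rate : ∀ K : ℝ, 0 < K → 2 * vN < K ^ 2 → ∀ᵐ ω ∂(bondLaw hlf), ∀ᶠ n : ℕ in atTop,
    |(changes n ω : ℝ) - cN * log n| ≤ K * √(log n * log (log n)) := by
  intro K hK0 hK
  obtain ⟨C1, hC1, h1⟩ := mom_up
  obtain ⟨C2, hC2, h2⟩ := mom_dn
  refine as_rate (T := changes) meas_changes changes_le (fun ω a b hab => changes_mono hab ω)
    cN_pos.le vN_pos cN_pos.le ⟨C1, hC1, fun l hl0 hl1 n hn => ?_⟩
    ⟨C2, hC2, fun l hl0 hl1 n hn => ?_⟩ hK0 hK
  · rw [int_pow]
    exact h1 l hl0 hl1 n hn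
  · rw [int_pow]
    exact h2 l hl0 hl1 n hn

theorem lower_tail {θ : ℝ} (h0 : π / 3 < θ) (h1 : θ < π / 2) :
    Tendsto (fun n : ℕ => log ((bondLaw hlf).real
      {ω | (changes n ω : ℝ) ≤ 3 / (2 * π ^ 2) * (θ * cos θ / sin θ) * log n}) / log n) atTop
    (𝓝 (-(3 / (2 * π ^ 2) * (θ * cos θ / sin θ) * log (2 * cos θ) +
      3 / (4 * π ^ 2) * (θ ^ 2 - π ^ 2 / 9)))) := by
  have hpi := pi_pos
  -- the parameters
  have hneg : ∀ θ : ℝ, π / 3 < θ → θ < π / 2 → log (2 * cos θ) < 0 := by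
    intro θ h0 h1
    have hc : 0 < cos θ := cos_pos_of_mem_Ioo ⟨by linarith, h1⟩
    apply log_neg (by linarith)
    have h2 := cos_lt_cos_of_nonneg_of_le_pi_div_two (by positivity : (0 : ℝ) ≤ π / 3) h1.le h0
    rw [cos_pi_div_three] at h2
    linarith
  set I : ℝ → ℝ := fun θ => 3 / (2 * π ^ 2) * (θ * cos θ / sin θ) * log (2 * cos θ) +
      3 / (4 * π ^ 2) * (θ ^ 2 - π ^ 2 / 9) with hI
  have hIe : ∀ θ : ℝ, π / 3 < θ → θ < π / 2 → log (2 * cos θ) *
      (3 / (2 * π ^ 2) * (θ * cos θ / sin θ)) - psi (exp (log (2 * cos θ))) = I θ := by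
    intro θ h0 h1
    have hc : 0 < cos θ := cos_pos_of_mem_Ioo ⟨by linarith, h1⟩
    rw [exp_log (by linarith), psi_cos (by linarith) h1, hI]
    ring
  have hcont : ContinuousAt I θ := by
    have hc : 0 < cos θ := cos_pos_of_mem_Ioo ⟨by linarith, h1⟩
    have hs : 0 < sin θ := sin_pos_of_pos_of_lt_pi (by linarith) (by linarith [pi_pos])
    apply ContinuousAt.add
    · apply ContinuousAt.mul
      · apply ContinuousAt.mul continuousAt_const
        exact ((continuousAt_id).mul continuous_cos.continuousAt).div continuous_sin.continuousAt hs.ne'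
      · apply ContinuousAt.log
        · exact continuousAt_const.mul continuous_cos.continuousAt
        · positivity
    · exact continuousAt_const.mul ((continuousAt_id.pow 2).sub continuousAt_const)
  have key := ldp (μ := bondLaw hlf) (T := changes) meas_changes changes_le
    (Λ := fun s => psi (exp s)) (s := log (2 * cos θ))
    (a := 3 / (2 * π ^ 2) * (θ * cos θ / sin θ)) ?_ ?_ (hneg θ h0 h1) ?_
  · have e := hIe θ h0 h1
    rw [e] at key
    exact key
  · intro s hs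
    obtain ⟨c, C, hc, hC, h⟩ := ET_pow (exp_pos s) (exp_le_one_iff.2 hs.le)
    refine ⟨C, hC, fun n hn => ?_⟩
    rw [int_pow]
    rw [expL hn]
    exact (h n hn).2
  · intro s hs
    obtain ⟨c, C, hc, hC, h⟩ := ET_pow (exp_pos s) (exp_le_one_iff.2 hs.le)
    refine ⟨c, hc, fun n hn => ?_⟩
    rw [int_pow]
    rw [expL hn]
    exact (h n hn).1
  · intro η hη
    obtain ⟨r, hr0, hr⟩ := Metric.continuousAt_iff.1 hcont η hη
    set θ' : ℝ := θ + min (r / 2) ((π / 2 - θ) / 2) with hθ'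
    have h2 : 0 < min (r / 2) ((π / 2 - θ) / 2) := lt_min (by linarith) (by linarith)
    have h3 : min (r / 2) ((π / 2 - θ) / 2) ≤ r / 2 := min_le_left _ _
    have h4 : min (r / 2) ((π / 2 - θ) / 2) ≤ (π / 2 - θ) / 2 := min_le_right _ _
    have h5 : π / 3 < θ' := by linarith
    have h6 : θ' < π / 2 := by linarith
    refine ⟨log (2 * cos θ'), hneg θ' h5 h6, 3 / (2 * π ^ 2) * (θ' * cos θ' / sin θ'), ?_,
      deriv_L (by linarith) h6, ?_⟩
    · apply mul_lt_mul_of_pos_left _ (by positivity)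
      exact anti_xcot ⟨by linarith, h1⟩ ⟨by linarith, h6⟩ (by linarith)
    · rw [hIe θ' h5 h6, hIe θ h0 h1]
      have h7 := hr (x := θ') (by
        rw [dist_eq, hθ', add_sub_cancel_left, abs_of_pos h2]
        linarith)
      rw [dist_eq] at h7
      have := (abs_lt.1 h7).2
      linarith

theorem upper_tail {θ : ℝ} (h0 : 0 < θ) (h1 : θ < π / 3) : ∃ C : ℝ, 0 < C ∧ ∀ n : ℕ, 1 ≤ n →
    (bondLaw hlf).real {ω | 3 / (2 * π ^ 2) * (θ * cos θ / sin θ) * log n ≤ (changes n ω : ℝ)} ≤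
      C * (n : ℝ) ^ (-(3 / (2 * π ^ 2) * (θ * cos θ / sin θ) * log (2 * cos θ) +
      3 / (4 * π ^ 2) * (θ ^ 2 - π ^ 2 / 9))) := by
  have hpi := pi_pos
  have hc : 1 / 2 < cos θ := by
    have h2 := cos_lt_cos_of_nonneg_of_le_pi_div_two h0.le (by linarith : π / 3 ≤ π / 2) h1
    rwa [cos_pi_div_three] at h2
  have hc1 : cos θ < 1 := by
    have := cos_lt_cos_of_nonneg_of_le_pi_div_two le_rfl (by linarith : θ ≤ π / 2) h0
    rwa [cos_zero] at this
  obtain ⟨C, hC, h⟩ := ET_pow_gt (t := 2 * cos θ) (by linarith) (by linarith)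
  refine ⟨C, hC, fun n hn => ?_⟩
  have hn0 : (0 : ℝ) < n := by exact_mod_cast hn
  set s : ℝ := log (2 * cos θ) with hs
  have hs0 : 0 ≤ s := log_nonneg (by linarith)
  have es : exp s = 2 * cos θ := exp_log (by linarith)
  have k := cheb (μ := bondLaw hlf) (T := changes n) (meas_changes n) (changes_le n) (s := s)
    (x := 3 / (2 * π ^ 2) * (θ * cos θ / sin θ) * log n) (meas_ge (meas_changes n) _)
    (fun ω hω => mul_le_mul_of_nonneg_left hω hs0)
  rw [int_pow, es] at k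
  refine (k.trans (mul_le_mul_of_nonneg_left (h n hn) (exp_pos _).le)).trans (le_of_eq ?_)
  rw [psi_cos h0 (by linarith), rpow_def_of_pos hn0, rpow_def_of_pos hn0, mul_left_comm, ← exp_add]
  congr 2
  ring

end Pool.Agent.H450R4.NL
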