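import Pool.Agent.H450R4.NLTail

/-!
Almost sure rate of convergence from exponential moments (moderate deviations, Borel-Cantelli).
-/

namespace Pool.Agent.H450R4.NL
open MeasureTheory Filter Topology Real

/-- the exponent of the moderate deviations -/
theorem md_exp {v d K : ℝ} (hv : 0 < v) (hK : 0 < K) (hd : 0 ≤ d) :
    ∀ᶠ L : ℝ in atTop, ∃ l : ℝ, 0 ≤ l ∧ l ≤ 1 / 2 ∧
      -l * (K * √(L * log L)) + (v * l ^ 2 / 2 + d * l ^ 3) * L ≤
        -(K ^ 2 / (2 * v)) * log L + 1 := by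
  set ε : ℝ := min (v / (2 * K)) (1 / (d * (K / v) ^ 3 + 1)) with hε
  have hε0 : 0 < ε := lt_min (by positivity) (by positivity)
  have h1 := (isLittleO_pow_log_id_atTop (n := 3)).def (c := ε ^ 2) (by positivity)
  filter_upwards [h1, eventually_ge_atTop (exp 1)] with L k1 k2
  have hL0 : 0 < L := lt_of_lt_of_le (exp_pos 1) k2
  set x : ℝ := log L with hx
  have hx1 : 1 ≤ x := by
    rw [hx, ← log_exp 1]
    exact log_le_log (exp_pos 1) k2
  set q : ℝ := √(x / L) with hq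
  have hq0 : 0 ≤ q := sqrt_nonneg _
  have hq2 : q ^ 2 = x / L := sq_sqrt (by positivity)
  have hqL : q ^ 2 * L = x := by rw [hq2]; field_simp
  have hqx : q * x ≤ ε := by
    have k3 : x ^ 3 ≤ ε ^ 2 * L := by
      simp only [norm_eq_abs, id] at k1
      rwa [abs_of_nonneg (by positivity), abs_of_pos hL0] at k1
    have k4 : (q * x) ^ 2 ≤ ε ^ 2 := by
      rw [mul_pow, hq2, div_mul_eq_mul_div, div_le_iff₀ hL0]
      calc x * x ^ 2 = x ^ 3 := by ring
        _ ≤ _ := k3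
    exact (pow_le_pow_iff_left₀ (mul_nonneg hq0 (by linarith)) hε0.le (by norm_num)).1 k4
  have hsq : √(L * x) = L * q := by
    rw [hq, ← sqrt_sq hL0.le, ← sqrt_mul (by positivity), sqrt_sq hL0.le]
    congr 1
    field_simp
  have hKv : 0 < K / v := by positivity
  refine ⟨K / v * q, by positivity, ?_, ?_⟩
  · have k5 : q ≤ v / (2 * K) := by
      calc q = q * 1 := (mul_one q).symm
        _ ≤ q * x := mul_le_mul_of_nonneg_left hx1 hq0
        _ ≤ ε := hqx
        _ ≤ _ := min_le_left _ _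
    calc K / v * q ≤ K / v * (v / (2 * K)) := mul_le_mul_of_nonneg_left k5 hKv.le
      _ = 1 / 2 := by field_simp
  · rw [hsq]
    have e1 : -(K / v * q) * (K * (L * q)) = -(K ^ 2 / v) * x := by
      rw [← hqL]; ring
    have e2 : (v * (K / v * q) ^ 2 / 2 + d * (K / v * q) ^ 3) * L =
        K ^ 2 / (2 * v) * x + d * (K / v) ^ 3 * (q * x) := by
      have : (v * (K / v * q) ^ 2 / 2 + d * (K / v * q) ^ 3) * L =
        (v * (K / v) ^ 2 / 2) * (q ^ 2 * L) + d * (K / v) ^ 3 * (q * (q ^ 2 * L)) := by ring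
      rw [this, hqL]
      congr 1
      field_simp
    rw [e1, e2]
    have k6 : d * (K / v) ^ 3 * (q * x) ≤ 1 := by
      have k7 : q * x ≤ 1 / (d * (K / v) ^ 3 + 1) := hqx.trans (min_le_right _ _)
      have k8 : 0 ≤ d * (K / v) ^ 3 := by positivity
      calc d * (K / v) ^ 3 * (q * x) ≤ d * (K / v) ^ 3 * (1 / (d * (K / v) ^ 3 + 1)) :=
            mul_le_mul_of_nonneg_left k7 k8
        _ ≤ 1 := by
            rw [mul_one_div, div_le_one (by linarith)]
            linarith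
    have e3 : -(K ^ 2 / v) * x + (K ^ 2 / (2 * v) * x) = -(K ^ 2 / (2 * v)) * x := by
      field_simp
      ring
    linarith

/-- comparison of the deterministic rates at neighbouring scales -/
theorem det_rate {K' K B b : ℝ} (h0 : 0 < K') (h1 : K' < K) (hb : 0 ≤ b) :
    ∀ᶠ L : ℝ in atTop, B + K' * √((L + b) * log (L + b)) ≤ K * √(L * log L) := by
  set ε : ℝ := (K - K') / (2 * K') with hε
  have hε0 : 0 < ε := div_pos (by linarith) (by linarith)
  have hKε : K' * (1 + ε) = (K + K') / 2 := by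
    rw [hε]
    field_simp
    ring
  have l1 : Tendsto (fun L : ℝ => √L) atTop atTop := tendsto_sqrt_atTop
  filter_upwards [l1.eventually_ge_atTop (2 * B / (K - K')), eventually_ge_atTop (b / ε),
    eventually_ge_atTop (exp 1)] with L k1 k2 k3
  have hL0 : 0 < L := lt_of_lt_of_le (exp_pos 1) k3
  have hx1 : 1 ≤ log L := by
    rw [← log_exp 1]
    exact log_le_log (exp_pos 1) k3
  have hbL : L + b ≤ (1 + ε) * L := by
    have := (div_le_iff₀ hε0).1 k2
    linarith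
  have hlog : log (L + b) ≤ (1 + ε) * log L := by
    have h2 : log (L + b) ≤ log ((1 + ε) * L) := log_le_log (by linarith) hbL
    rw [log_mul (by linarith) hL0.ne'] at h2
    have h3 : log (1 + ε) ≤ ε := by
      have := log_le_sub_one_of_pos (x := 1 + ε) (by linarith)
      linarith
    nlinarith
  have hlog0 : 0 ≤ log (L + b) := by
    have := log_le_log hL0 (show L ≤ L + b by linarith)
    linarith
  have h4 : √((L + b) * log (L + b)) ≤ (1 + ε) * √(L * log L) := by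
    rw [sqrt_le_left (by positivity), mul_pow, sq_sqrt (by positivity)]
    calc (L + b) * log (L + b) ≤ ((1 + ε) * L) * ((1 + ε) * log L) :=
          mul_le_mul hbL hlog hlog0 (by positivity)
      _ = _ := by ring
  have h5 : √L ≤ √(L * log L) := by
    apply sqrt_le_sqrt
    nlinarith
  have h6 : B ≤ (K - K') / 2 * √(L * log L) := by
    have h7 : 2 * B / (K - K') ≤ √(L * log L) := k1.trans h5
    have h8 : 0 < K - K' := by linarith
    rw [div_le_iff₀ h8] at h7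
    linarith
  have h7 : K' * √((L + b) * log (L + b)) ≤ (K + K') / 2 * √(L * log L) := by
    rw [← hKε, mul_assoc]
    exact mul_le_mul_of_nonneg_left h4 h0.le
  linarith

section
variable {Ω : Type*} [MeasurableSpace Ω] {μ : Measure Ω} [IsProbabilityMeasure μ]

theorem tails {T : ℕ → Ω → ℕ} (hm : ∀ n, Measurable (T n)) (hb : ∀ n ω, T n ω ≤ 2 * n)
    {c v d : ℝ} (hv : 0 < v) (hd : 0 ≤ d)
    (hU : ∃ C : ℝ, 0 < C ∧ ∀ l : ℝ, 0 ≤ l → l ≤ 1 / 2 → ∀ n : ℕ, 1 ≤ n →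
      ∫ ω, exp (l * (T n ω : ℝ)) ∂μ ≤ C * exp ((c * l + v * l ^ 2 / 2 + d * l ^ 3) * log n))
    (hL : ∃ C : ℝ, 0 < C ∧ ∀ l : ℝ, 0 ≤ l → l ≤ 1 / 2 → ∀ n : ℕ, 1 ≤ n →
      ∫ ω, exp (-l * (T n ω : ℝ)) ∂μ ≤ C * exp ((-(c * l) + v * l ^ 2 / 2 + d * l ^ 3) * log n))
    {K : ℝ} (hK : 0 < K) : ∃ C : ℝ, 0 < C ∧ ∀ᶠ n : ℕ in atTop,
      μ.real ({ω | c * log n + K * √(log n * log (log n)) ≤ (T n ω : ℝ)} ∪
        {ω | (T n ω : ℝ) ≤ c * log n - K * √(log n * log (log n))}) ≤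
      C * exp (-(K ^ 2 / (2 * v)) * log (log n)) := by
  obtain ⟨C1, hC1, hU⟩ := hU
  obtain ⟨C2, hC2, hL⟩ := hL
  have hlog : Tendsto (fun n : ℕ => log (n : ℝ)) atTop atTop :=
    tendsto_log_atTop.comp tendsto_natCast_atTop_atTop
  refine ⟨(C1 + C2) * exp 1, by positivity, ?_⟩
  filter_upwards [hlog.eventually (md_exp hv hK hd), eventually_ge_atTop 1] with n ⟨l, hl0, hl1, hl⟩ hn
  set L : ℝ := log n
  set s : ℝ := K * √(L * log L)
  have e : ∀ C : ℝ, 0 < C → C * exp (-l * s + (v * l ^ 2 / 2 + d * l ^ 3) * L) ≤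
      C * exp 1 * exp (-(K ^ 2 / (2 * v)) * log L) := by
    intro C hC
    rw [mul_assoc, ← exp_add]
    apply mul_le_mul_of_nonneg_left _ hC.le
    apply exp_le_exp.2
    linarith
  have h1 : μ.real {ω | c * L + s ≤ (T n ω : ℝ)} ≤
      C1 * exp (-l * s + (v * l ^ 2 / 2 + d * l ^ 3) * L) := by
    have h2 := cheb (μ := μ) (hm n) (hb n) (s := l) (x := c * L + s) (meas_ge (hm n) _)
      (fun ω hω => mul_le_mul_of_nonneg_left hω hl0)
    refine h2.trans ((mul_le_mul_of_nonneg_left (hU l hl0 hl1 n hn) (exp_pos _).le).trans (le_of_eq ?_))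
    rw [mul_left_comm, ← exp_add]
    congr 2
    ring
  have h3 : μ.real {ω | (T n ω : ℝ) ≤ c * L - s} ≤
      C2 * exp (-l * s + (v * l ^ 2 / 2 + d * l ^ 3) * L) := by
    have h2 := cheb (μ := μ) (hm n) (hb n) (s := -l) (x := c * L - s) (meas_le (hm n) _)
      (fun ω hω => mul_le_mul_of_nonpos_left hω (by linarith))
    refine h2.trans ((mul_le_mul_of_nonneg_left (hL l hl0 hl1 n hn) (exp_pos _).le).trans (le_of_eq ?_))
    rw [mul_left_comm, ← exp_add]
    congr 2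
    ring
  calc μ.real ({ω | c * L + s ≤ (T n ω : ℝ)} ∪ {ω | (T n ω : ℝ) ≤ c * L - s}) ≤
      μ.real {ω | c * L + s ≤ (T n ω : ℝ)} + μ.real {ω | (T n ω : ℝ) ≤ c * L - s} :=
        measureReal_union_le _ _
    _ ≤ C1 * exp 1 * exp (-(K ^ 2 / (2 * v)) * log L) +
        C2 * exp 1 * exp (-(K ^ 2 / (2 * v)) * log L) :=
        add_le_add (h1.trans (e C1 hC1)) (h3.trans (e C2 hC2))
    _ = _ := by ring

theorem as_rate {T : ℕ → Ω → ℕ} (hm : ∀ n, Measurable (T n)) (hb : ∀ n ω, T n ω ≤ 2 * n)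
    (hmono : ∀ ω, Monotone (fun n => T n ω)) {c v d : ℝ} (hc : 0 ≤ c) (hv : 0 < v) (hd : 0 ≤ d)
    (hU : ∃ C : ℝ, 0 < C ∧ ∀ l : ℝ, 0 ≤ l → l ≤ 1 / 2 → ∀ n : ℕ, 1 ≤ n →
      ∫ ω, exp (l * (T n ω : ℝ)) ∂μ ≤ C * exp ((c * l + v * l ^ 2 / 2 + d * l ^ 3) * log n))
    (hL : ∃ C : ℝ, 0 < C ∧ ∀ l : ℝ, 0 ≤ l → l ≤ 1 / 2 → ∀ n : ℕ, 1 ≤ n →
      ∫ ω, exp (-l * (T n ω : ℝ)) ∂μ ≤ C * exp ((-(c * l) + v * l ^ 2 / 2 + d * l ^ 3) * log n))
    {K : ℝ} (hK0 : 0 < K) (hK : 2 * v < K ^ 2) :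
    ∀ᵐ ω ∂μ, ∀ᶠ n : ℕ in atTop, |(T n ω : ℝ) - c * log n| ≤ K * √(log n * log (log n)) := by
  set K' : ℝ := √((2 * v + K ^ 2) / 2) with hK'
  have hK'0 : 0 < K' := sqrt_pos.2 (by positivity)
  have hK'2 : K' ^ 2 = (2 * v + K ^ 2) / 2 := sq_sqrt (by positivity)
  have hK'K : K' < K := by
    rw [hK', sqrt_lt' hK0]
    linarith
  have hp : 1 < K' ^ 2 / (2 * v) := by
    rw [lt_div_iff₀ (by linarith)]
    linarith
  obtain ⟨C, hC, htail⟩ := tails hm hb hv hd hU hL hK'0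
  have hlog2 : 0 < log 2 := log_pos (by norm_num)
  have hpow : Tendsto (fun j : ℕ => 2 ^ j) atTop atTop := tendsto_pow_atTop_atTop_of_one_lt (by norm_num)
  set S : ℕ → Set Ω := fun j => {ω | c * log ((2 ^ j : ℕ) : ℝ) +
      K' * √(log ((2 ^ j : ℕ) : ℝ) * log (log ((2 ^ j : ℕ) : ℝ))) ≤ (T (2 ^ j) ω : ℝ)} ∪
    {ω | (T (2 ^ j) ω : ℝ) ≤ c * log ((2 ^ j : ℕ) : ℝ) -
      K' * √(log ((2 ^ j : ℕ) : ℝ) * log (log ((2 ^ j : ℕ) : ℝ)))} with hS
  have hlogj : ∀ j : ℕ, log ((2 ^ j : ℕ) : ℝ) = j * log 2 := by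
    intro j
    push_cast
    rw [log_pow]
  have hsum : Summable (fun j => μ.real (S j)) := by
    have h1 : Summable (fun j : ℕ => C * exp (-(K' ^ 2 / (2 * v)) * log (log 2)) *
        (1 / (j : ℝ) ^ (K' ^ 2 / (2 * v)))) :=
      (summable_one_div_nat_rpow.2 hp).mul_left _
    refine Summable.of_norm_bounded_eventually_nat h1 ?_
    filter_upwards [hpow.eventually htail, eventually_ge_atTop 1] with j hj hj1
    have hj0 : (0 : ℝ) < j := by exact_mod_cast hj1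
    rw [norm_of_nonneg measureReal_nonneg]
    refine hj.trans (le_of_eq ?_)
    rw [hlogj, log_mul hj0.ne' hlog2.ne', mul_add, exp_add, rpow_def_of_pos hj0, one_div, ← exp_neg]
    rw [show -(K' ^ 2 / (2 * v)) * log (j : ℝ) = -(log (j : ℝ) * (K' ^ 2 / (2 * v))) by ring]
    ring
  have hBC : ∀ᵐ ω ∂μ, ∀ᶠ j in atTop, ω ∉ S j := by
    apply ae_eventually_notMem
    have h2 : (fun j => μ (S j)) = fun j => ENNReal.ofReal (μ.real (S j)) := by
      funext j
      rw [ofReal_measureReal]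
    rw [h2]
    exact hsum.tsum_ofReal_ne_top
  have hlog : Tendsto (fun n : ℕ => log (n : ℝ)) atTop atTop :=
    tendsto_log_atTop.comp tendsto_natCast_atTop_atTop
  filter_upwards [hBC] with ω hω
  obtain ⟨j0, hj0⟩ := eventually_atTop.1 hω
  filter_upwards [hlog.eventually (det_rate (B := c * log 2) hK'0 hK'K hlog2.le),
    hlog.eventually_ge_atTop (exp 1 + log 2), eventually_ge_atTop (2 ^ (j0 + 1))] with n h1 h2 hn
  have hn0 : n ≠ 0 := by
    have := Nat.one_le_two_pow (n := j0 + 1)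
    omega
  set j : ℕ := Nat.log 2 n with hj
  have hj1 : 2 ^ j ≤ n := Nat.pow_log_le_self 2 hn0
  have hj2 : n < 2 ^ (j + 1) := Nat.lt_pow_succ_log_self (by norm_num) n
  have hj3 : j0 ≤ j := by
    have h3 : 2 ^ (j0 + 1) < 2 ^ (j + 1) := lt_of_le_of_lt hn hj2
    have := (Nat.pow_lt_pow_iff_right (by norm_num)).1 h3
    omega
  have a1 := hj0 j hj3
  have a2 := hj0 (j + 1) (by omega)
  simp only [hS, Set.mem_union, Set.mem_ofPred_eq, not_or, not_le, hlogj] at a1 a2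
  set L : ℝ := log n with hL
  have b1 : (j : ℝ) * log 2 ≤ L := by
    rw [← hlogj]
    exact log_le_log (by positivity) (by exact_mod_cast hj1)
  have b2 : L ≤ ((j + 1 : ℕ) : ℝ) * log 2 := by
    rw [← hlogj]
    exact log_le_log (by positivity) (by exact_mod_cast hj2.le)
  push_cast at b2 a2
  have c1 : (T (2 ^ j) ω : ℝ) ≤ T n ω := by exact_mod_cast hmono ω hj1
  have c2 : (T n ω : ℝ) ≤ T (2 ^ (j + 1)) ω := by exact_mod_cast hmono ω hj2.le
  have hphi : ∀ x y : ℝ, 1 ≤ x → x ≤ y → √(x * log x) ≤ √(y * log y) := by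
    intro x y hx hxy
    apply sqrt_le_sqrt
    have h3 := log_nonneg hx
    have h4 := log_le_log (by linarith) hxy
    exact mul_le_mul hxy h4 h3 (by linarith)
  have he : (1 : ℝ) ≤ exp 1 := one_le_exp (by norm_num)
  have d1 : √(↑j * log 2 * log (↑j * log 2)) ≤ √(L * log L) :=
    hphi _ _ (by linarith) b1
  have d2 : √((↑j + 1) * log 2 * log ((↑j + 1) * log 2)) ≤ √((L + log 2) * log (L + log 2)) :=
    hphi _ _ (by linarith) (by linarith)
  have d3 : √(L * log L) ≤ √((L + log 2) * log (L + log 2)) := hphi _ _ (by linarith) (by linarith)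
  have e1 := mul_le_mul_of_nonneg_left d1 hK'0.le
  have e2 := mul_le_mul_of_nonneg_left d2 hK'0.le
  have e3 := mul_le_mul_of_nonneg_left d3 hK'0.le
  have f1 : c * L ≤ c * ((↑j + 1) * log 2) := mul_le_mul_of_nonneg_left b2 hc
  have f2 : c * (↑j * log 2) ≤ c * L := mul_le_mul_of_nonneg_left b1 hc
  rw [abs_le]
  constructor
  · have := a1.2
    linarith
  · have := a2.1
    linarith

end

end Pool.Agent.H450R4.NL
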