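import Pool.Agent.H863R2.NL.Pow
import Pool.Agent.H863R2.NL.Inf
import Pool.Agent.H863R2.NL.CLT
import Pool.Agent.H450R4.NLRate

/-!
Critical bond percolation on the square lattice: exponential moments of the number of nested layers,
uniformly near zero, and their consequences.
-/

namespace Pool.Agent.H450R4.NL
open Pool.Agent.H863R2.NL Pool.Agent.H863R2.NL.PowAux Real MeasureTheory Filter Topology

theorem fac_up {p l : ℝ} (hp0 : 0 ≤ p) (hl0 : 0 ≤ l) (hl1 : l ≤ 1 / 2) (hp1 : p ≤ 1 / 3) :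
    1 + p * (exp l - 1) ≤ exp (l * p + l ^ 2 / 2 * (p * (1 - p)) + l ^ 3 * p) := by
  have h1 : exp l ≤ 1 + l + l ^ 2 / 2 + l ^ 3 := by
    have h := exp_bound' hl0 (by linarith) (n := 3) (by norm_num)
    simp only [Finset.sum_range_succ, Finset.sum_range_zero, Nat.factorial] at h
    norm_num at h
    have : 0 ≤ l ^ 3 := by positivity
    linarith
  have h2 : 0 ≤ p * (1 - p) := mul_nonneg hp0 (by linarith)
  set y : ℝ := l * p + l ^ 2 / 2 * (p * (1 - p)) + l ^ 3 * p with hy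
  have hy0 : l * p ≤ y := by
    have : 0 ≤ l ^ 2 / 2 * (p * (1 - p)) := by positivity
    have : 0 ≤ l ^ 3 * p := by positivity
    linarith
  have hlp : 0 ≤ l * p := by positivity
  have h3 := quadratic_le_exp_of_nonneg (hlp.trans hy0)
  have h4 : (l * p) ^ 2 ≤ y ^ 2 := pow_le_pow_left₀ hlp hy0 2
  have h5 : p * exp l ≤ p * (1 + l + l ^ 2 / 2 + l ^ 3) := mul_le_mul_of_nonneg_left h1 hp0
  have h6 : y + (l * p) ^ 2 / 2 = p * l + p * l ^ 2 / 2 + p * l ^ 3 := by rw [hy]; ring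
  linarith

theorem fac_dn {p l : ℝ} (hp0 : 0 ≤ p) (hl0 : 0 ≤ l) (hl1 : l ≤ 1 / 2) (hp1 : p ≤ 1 / 3) :
    1 + p * (exp (-l) - 1) ≤ exp (-l * p + l ^ 2 / 2 * (p * (1 - p)) + l ^ 3 * p) := by
  have h1 : exp (-l) ≤ 1 - l + l ^ 2 / 2 := by
    have h := quadratic_le_exp_of_nonneg hl0
    have h' : exp (-l) * exp l = 1 := by rw [← exp_add]; simp
    have h2 : 0 < 1 - l + l ^ 2 / 2 := by nlinarith
    by_contra hcon
    push Not at hcon
    have h3 : (1 - l + l ^ 2 / 2) * (1 + l + l ^ 2 / 2) < exp (-l) * exp l :=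
      mul_lt_mul hcon h (by positivity) (exp_pos _).le
    rw [h'] at h3
    have : 0 ≤ l ^ 4 := by positivity
    nlinarith
  set u : ℝ := l ^ 2 / 2 * (p * (1 - p)) + l ^ 3 * p with hu
  have hpp : 0 ≤ p * (1 - p) := mul_nonneg hp0 (by linarith)
  have hu0 : 0 ≤ u := by positivity
  have hl3 : 0 ≤ l ^ 3 * p := by positivity
  have hu1 : l * p * u ≤ l ^ 3 * p / 3 := by
    have h3 : u ≤ l ^ 2 * p := by
      have h4 : l ^ 2 * p * (l + (1 - p) / 2) ≤ l ^ 2 * p * 1 :=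
        mul_le_mul_of_nonneg_left (by linarith) (by positivity)
      have h5 : u = l ^ 2 * p * (l + (1 - p) / 2) := by rw [hu]; ring
      linarith
    calc l * p * u ≤ l * p * (l ^ 2 * p) := mul_le_mul_of_nonneg_left h3 (by positivity)
      _ = l ^ 3 * p * p := by ring
      _ ≤ l ^ 3 * p * (1 / 3) := mul_le_mul_of_nonneg_left hp1 hl3
      _ = _ := by ring
  set z : ℝ := l * p - u with hz
  have hlp : 0 ≤ l * p := by positivity
  have hz1 : z ≤ l * p := by linarith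
  have hz0 : 0 ≤ z := by
    have h5 : z = l * p * (1 - l * (1 - p) / 2 - l ^ 2) := by rw [hz, hu]; ring
    rw [h5]
    apply mul_nonneg hlp
    nlinarith
  have hlp1 : l * p ≤ 1 := by nlinarith
  have h3 := (abs_le.1 (exp_bound (x := -z) (by rw [abs_neg, abs_of_nonneg hz0]; linarith) (n := 3)
    (by norm_num))).1
  rw [abs_neg, abs_of_nonneg hz0] at h3
  simp only [Finset.sum_range_succ, Finset.sum_range_zero, Nat.factorial] at h3
  norm_num at h3
  have h4 : z ^ 3 ≤ l ^ 3 * p / 9 := by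
    calc z ^ 3 ≤ (l * p) ^ 3 := pow_le_pow_left₀ hz0 hz1 3
      _ = l ^ 3 * p * (p * p) := by ring
      _ ≤ l ^ 3 * p * (1 / 9) := by
          apply mul_le_mul_of_nonneg_left _ hl3
          nlinarith
      _ = _ := by ring
  have h5 : z ^ 2 = (l * p) ^ 2 - 2 * (l * p * u) + u ^ 2 := by rw [hz]; ring
  have h6 : 0 ≤ u ^ 2 := by positivity
  have e : -l * p + l ^ 2 / 2 * (p * (1 - p)) + l ^ 3 * p = -z := by rw [hz, hu]; ring
  rw [e]
  have h7 : p * exp (-l) ≤ p * (1 - l + l ^ 2 / 2) := mul_le_mul_of_nonneg_left h1 hp0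
  have h8 : u + (l * p) ^ 2 / 2 = p * l ^ 2 / 2 + l ^ 3 * p := by rw [hu]; ring
  linarith

theorem prod_bound {f : ℝ → ℝ} {A B D : ℝ} (s : Multiset ℝ)
    (h0 : ∀ p ∈ s, 0 ≤ f p)
    (h : ∀ p ∈ s, f p ≤ exp (A * p + B * (p * (1 - p)) + D * p)) :
    (s.map f).prod ≤ exp (A * s.sum + B * (s.map (fun p => p * (1 - p))).sum + D * s.sum) := by
  induction s using Multiset.induction_on with
  | empty => simp
  | cons a s ih =>
    have ih' := ih (fun p hp => h0 p (Multiset.mem_cons_of_mem hp))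
      (fun p hp => h p (Multiset.mem_cons_of_mem hp))
    simp only [Multiset.map_cons, Multiset.prod_cons, Multiset.sum_cons]
    have h1 := h a (Multiset.mem_cons_self a s)
    have h2 : 0 ≤ (s.map f).prod := by
      apply Multiset.prod_nonneg
      intro x hx
      obtain ⟨p, hp, rfl⟩ := Multiset.mem_map.1 hx
      exact h0 p (Multiset.mem_cons_of_mem hp)
    calc f a * (s.map f).prod ≤ exp (A * a + B * (a * (1 - a)) + D * a) *
          exp (A * s.sum + B * (s.map (fun p => p * (1 - p))).sum + D * s.sum) :=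
          mul_le_mul h1 ih' h2 (exp_pos _).le
      _ = _ := by
          rw [← exp_add]
          congr 1
          ring

theorem vN_pos : 0 < vN := CLTAux.vN_pos

theorem vN_le : vN ≤ 4 / 3 * cN := by
  unfold vN cN
  have h1 : 0 ≤ 1 / (2 * π ^ 2) := by positivity
  have h2 : 2 / (3 * √3 * π) = 4 / 3 * (1 / (2 * √3 * π)) := by
    have : 0 < √3 := sqrt_pos.2 (by norm_num)
    field_simp
    ring
  linarith

theorem cN_le : cN ≤ 1 := by
  unfold cN
  have h1 := pi_gt_three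
  have h2 : 1 ≤ √3 := by
    rw [le_sqrt (by norm_num) (by norm_num)]
    norm_num
  rw [div_le_one (by positivity)]
  nlinarith

/-- exponential moments on the cylinder, uniformly near zero -/
theorem EN_up : ∃ C : ℝ, 0 < C ∧ ∀ l : ℝ, 0 ≤ l → l ≤ 1 / 2 → ∀ n : ℕ, 1 ≤ n →
    EN n (fun m => exp l ^ m) ≤ C * exp ((cN * l + vN * l ^ 2 / 2 + cN * l ^ 3) * log n) := by
  obtain ⟨ps, hps, ⟨C1, hC1⟩, ⟨C2, hC2⟩, -⟩ := ps_exists
  have hC10 : 0 ≤ C1 := (abs_nonneg _).trans (hC1 1 le_rfl)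
  have hC20 : 0 ≤ C2 := (abs_nonneg _).trans (hC2 1 le_rfl)
  refine ⟨exp (C1 + C2 + C1), exp_pos _, ?_⟩
  intro l hl0 hl1 n hn
  rw [PsSumAux.real_id (hps n hn)]
  refine (prod_bound (A := l) (B := l ^ 2 / 2) (D := l ^ 3) _ ?_ ?_).trans ?_
  · intro p hp
    have h1 := (hps n hn).1 p hp
    have h2 : 1 ≤ exp l := one_le_exp hl0
    have h3 : 0 ≤ p * (exp l - 1) := mul_nonneg h1.1.le (by linarith)
    linarith
  · intro p hp
    have h1 := (hps n hn).1 p hp
    exact fac_up h1.1.le hl0 hl1 h1.2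
  · rw [← exp_add]
    apply exp_le_exp.2
    have h1 := (abs_le.1 (hC1 n hn)).2
    have h2 := (abs_le.1 (hC2 n hn)).2
    have h3 : l * (ps n).sum ≤ l * (cN * log n) + C1 := by
      have : l * ((ps n).sum - cN * log n) ≤ l * C1 := mul_le_mul_of_nonneg_left h1 hl0
      have : l * C1 ≤ 1 * C1 := mul_le_mul_of_nonneg_right (by linarith) hC10
      linarith
    have h4 : l ^ 2 / 2 * ((ps n).map (fun p => p * (1 - p))).sum ≤ l ^ 2 / 2 * (vN * log n) + C2 := by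
      have h5 : l ^ 2 / 2 * (((ps n).map (fun p => p * (1 - p))).sum - vN * log n) ≤ l ^ 2 / 2 * C2 :=
        mul_le_mul_of_nonneg_left h2 (by positivity)
      have h6 : l ^ 2 / 2 * C2 ≤ 1 * C2 := mul_le_mul_of_nonneg_right (by nlinarith) hC20
      linarith
    have h5 : l ^ 3 * (ps n).sum ≤ l ^ 3 * (cN * log n) + C1 := by
      have h6 : l ^ 3 * ((ps n).sum - cN * log n) ≤ l ^ 3 * C1 :=
        mul_le_mul_of_nonneg_left h1 (by positivity)
      have h8 : l ^ 3 ≤ 1 := pow_le_one₀ hl0 (by linarith)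
      have h7 : l ^ 3 * C1 ≤ 1 * C1 := mul_le_mul_of_nonneg_right h8 hC10
      linarith
    linarith

theorem EN_dn : ∃ C : ℝ, 0 < C ∧ ∀ l : ℝ, 0 ≤ l → l ≤ 1 / 2 → ∀ n : ℕ, 1 ≤ n →
    EN n (fun m => exp (-l) ^ m) ≤ C * exp ((-(cN * l) + vN * l ^ 2 / 2 + cN * l ^ 3) * log n) := by
  obtain ⟨ps, hps, ⟨C1, hC1⟩, ⟨C2, hC2⟩, -⟩ := ps_exists
  have hC10 : 0 ≤ C1 := (abs_nonneg _).trans (hC1 1 le_rfl)
  have hC20 : 0 ≤ C2 := (abs_nonneg _).trans (hC2 1 le_rfl)
  refine ⟨exp (C1 + C2 + C1), exp_pos _, ?_⟩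
  intro l hl0 hl1 n hn
  rw [PsSumAux.real_id (hps n hn)]
  refine (prod_bound (A := -l) (B := l ^ 2 / 2) (D := l ^ 3) _ ?_ ?_).trans ?_
  · intro p hp
    have h1 := (hps n hn).1 p hp
    exact (PsSumAux.log_pos (exp_pos _) h1.1.le h1.2).le
  · intro p hp
    have h1 := (hps n hn).1 p hp
    exact fac_dn h1.1.le hl0 hl1 h1.2
  · rw [← exp_add]
    apply exp_le_exp.2
    have h1 := (abs_le.1 (hC1 n hn)).2
    have h1' := (abs_le.1 (hC1 n hn)).1
    have h2 := (abs_le.1 (hC2 n hn)).2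
    have h3 : -l * (ps n).sum ≤ -l * (cN * log n) + C1 := by
      have : l * (-C1) ≤ l * ((ps n).sum - cN * log n) := mul_le_mul_of_nonneg_left h1' hl0
      have : l * C1 ≤ 1 * C1 := mul_le_mul_of_nonneg_right (by linarith) hC10
      linarith
    have h4 : l ^ 2 / 2 * ((ps n).map (fun p => p * (1 - p))).sum ≤ l ^ 2 / 2 * (vN * log n) + C2 := by
      have h5 : l ^ 2 / 2 * (((ps n).map (fun p => p * (1 - p))).sum - vN * log n) ≤ l ^ 2 / 2 * C2 :=
        mul_le_mul_of_nonneg_left h2 (by positivity)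
      have h6 : l ^ 2 / 2 * C2 ≤ 1 * C2 := mul_le_mul_of_nonneg_right (by nlinarith) hC20
      linarith
    have h5 : l ^ 3 * (ps n).sum ≤ l ^ 3 * (cN * log n) + C1 := by
      have h6 : l ^ 3 * ((ps n).sum - cN * log n) ≤ l ^ 3 * C1 :=
        mul_le_mul_of_nonneg_left h1 (by positivity)
      have h8 : l ^ 3 ≤ 1 := pow_le_one₀ hl0 (by linarith)
      have h7 : l ^ 3 * C1 ≤ 1 * C1 := mul_le_mul_of_nonneg_right h8 hC10
      linarith
    linarith

/-- exponential moments in the plane, uniformly near zero -/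
theorem mom_up : ∃ C : ℝ, 0 < C ∧ ∀ l : ℝ, 0 ≤ l → l ≤ 1 / 2 → ∀ n : ℕ, 1 ≤ n →
    ET n (fun m => exp l ^ m) ≤ C * exp ((cN * l + vN * l ^ 2 / 2 + cN * l ^ 3) * log n) := by
  obtain ⟨C, hC, h⟩ := EN_up
  have hc := cN_pos
  have hv := vN_pos
  have hlog3 : 0 ≤ log 3 := log_nonneg (by norm_num)
  refine ⟨C * exp ((cN + vN + cN) * log 3), by positivity, ?_⟩
  intro l hl0 hl1 n hn
  have hn' : (1 : ℝ) ≤ n := by exact_mod_cast hn
  have h1 : ET n (fun m => exp l ^ m) ≤ EN (2 * n + 1) (fun m => exp l ^ m) :=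
    ET_le (by omega) (fun a b hab => pow_le_pow_right₀ (one_le_exp hl0) hab)
  refine (h1.trans (h l hl0 hl1 (2 * n + 1) (by omega))).trans ?_
  rw [mul_assoc, ← exp_add]
  apply mul_le_mul_of_nonneg_left _ hC.le
  apply exp_le_exp.2
  have h3 : log ((2 * n + 1 : ℕ) : ℝ) ≤ log 3 + log n := by
    rw [← log_mul (by norm_num) (by linarith)]
    apply log_le_log
    · push_cast; positivity
    · push_cast; linarith
  set κ : ℝ := cN * l + vN * l ^ 2 / 2 + cN * l ^ 3 with hκ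
  have hκ0 : 0 ≤ κ := by positivity
  have hκ1 : κ ≤ cN + vN + cN := by
    have h4 : cN * l ≤ cN * 1 := mul_le_mul_of_nonneg_left (by linarith) hc.le
    have h5 : vN * (l ^ 2 / 2) ≤ vN * 1 := mul_le_mul_of_nonneg_left (by nlinarith) hv.le
    have h6 : cN * l ^ 3 ≤ cN * 1 :=
      mul_le_mul_of_nonneg_left (pow_le_one₀ hl0 (by linarith)) hc.le
    linarith
  have h4 : κ * log ((2 * n + 1 : ℕ) : ℝ) ≤ κ * (log 3 + log n) := mul_le_mul_of_nonneg_left h3 hκ0
  have h5 : κ * log 3 ≤ (cN + vN + cN) * log 3 := mul_le_mul_of_nonneg_right hκ1 hlog3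
  linarith

theorem mom_dn : ∃ C : ℝ, 0 < C ∧ ∀ l : ℝ, 0 ≤ l → l ≤ 1 / 2 → ∀ n : ℕ, 1 ≤ n →
    ET n (fun m => exp (-l) ^ m) ≤
      C * exp ((-(cN * l) + vN * l ^ 2 / 2 + cN * l ^ 3) * log n) := by
  obtain ⟨C1, hC1, h⟩ := EN_dn
  obtain ⟨k, hk⟩ := RecAux.exists_k
  have hc := cN_pos
  have hv := vN_pos
  refine ⟨20 + 2 * (C1 * exp (1 + 10 * k)), by positivity, ?_⟩
  intro l hl0 hl1 n hn
  set κ : ℝ := -(cN * l) + vN * l ^ 2 / 2 + cN * l ^ 3 with hκ
  have hpow : ∀ m : ℕ, 1 ≤ m → exp (κ * log m) = (m : ℝ) ^ κ := by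
    intro m hm
    rw [rpow_def_of_pos (by exact_mod_cast hm), mul_comm]
  set t : ℝ := exp (-l) with ht
  have ht0 : 0 < t := exp_pos _
  have ht1 : t ≤ 1 := by
    rw [ht]
    exact exp_le_one_iff.2 (by linarith)
  have hg : Antitone (fun m : ℕ => t ^ m) := fun a b hab => pow_le_pow_of_le_one ht0.le ht1 hab
  have h0 : ∀ m : ℕ, 0 ≤ t ^ m := fun m => by positivity
  have hs : (0 : ℝ) < t ^ (1 + 10 * k) := by positivity
  have hfun : (fun m : ℕ => t ^ (m + 1 + 10 * k)) = fun m => t ^ (1 + 10 * k) * t ^ m := by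
    funext m
    rw [← pow_add]
    congr 1
    omega
  have hts : 1 ≤ exp (1 + 10 * k) * t ^ (1 + 10 * k) := by
    rw [ht, ← exp_nat_mul, ← exp_add]
    apply one_le_exp
    push_cast
    have : (0 : ℝ) ≤ 1 + 10 * k := by positivity
    nlinarith
  have hκ0 : κ ≤ 0 := by
    have h1 := vN_le
    have h2 : vN * (l ^ 2 / 2) ≤ 4 / 3 * cN * (l ^ 2 / 2) :=
      mul_le_mul_of_nonneg_right h1 (by positivity)
    have h3 : l ^ 2 ≤ l / 2 := by nlinarith
    have h4 : l ^ 3 ≤ l / 4 := by nlinarith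
    have h5 : cN * (2 / 3 * l ^ 2) ≤ cN * (2 / 3 * (l / 2)) :=
      mul_le_mul_of_nonneg_left (by linarith) hc.le
    have h6 : cN * l ^ 3 ≤ cN * (l / 4) := mul_le_mul_of_nonneg_left h4 hc.le
    have h7 : 0 ≤ cN * l := by positivity
    rw [hκ]
    linarith
  have hκ1 : -(1 / 2) ≤ κ := by
    have h1 : cN * l ≤ 1 * l := mul_le_mul_of_nonneg_right cN_le hl0
    have h2 : 0 ≤ vN * l ^ 2 / 2 := by positivity
    have h3 : 0 ≤ cN * l ^ 3 := by positivity
    rw [hκ]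
    linarith
  rw [hpow n hn]
  refine RecAux.rec_core (u := fun r => ET r (fun m => t ^ m)) ?_ ?_ hκ1 hκ0 (by positivity) ?_ n hn
  · intro r
    have := ET_le_ET (k := r) (g := fun m => t ^ m) (g' := fun _ => 1)
      (fun m => pow_le_one₀ ht0.le ht1)
    rwa [ET_const] at this
  · intro k k' hkk
    exact ET_anti hkk hg
  · intro a ha
    have h1 := EN_ge k ha hg h0
    simp only [hfun, ET_mul] at h1
    have h2 := h l hl0 hl1 (10 * a) (by omega)
    rw [hpow (10 * a) (by omega)] at h2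
    have h3 := RecAux.ET_nonneg (2 * a - 1) h0
    have h4 : 6 * (1 - (1/2 : ℝ) ^ 47) ^ (k + 1) *
        (t ^ (1 + 10 * k) * ET (2 * a - 1) fun m => t ^ m) ≤
        1 / 4 * (t ^ (1 + 10 * k) * ET (2 * a - 1) fun m => t ^ m) :=
      mul_le_mul_of_nonneg_right hk (by positivity)
    have h5 : t ^ (1 + 10 * k) * ET (4 * a) (fun m => t ^ m) ≤
        t ^ (1 + 10 * k) * (C1 * exp (1 + 10 * k) * ((10 * a : ℕ) : ℝ) ^ κ +
          1 / 4 * ET (2 * a - 1) (fun m => t ^ m)) := by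
      have h6 : C1 * ((10 * a : ℕ) : ℝ) ^ κ ≤
          t ^ (1 + 10 * k) * (C1 * exp (1 + 10 * k) * ((10 * a : ℕ) : ℝ) ^ κ) := by
        have h7 : 0 ≤ C1 * ((10 * a : ℕ) : ℝ) ^ κ := by positivity
        calc C1 * ((10 * a : ℕ) : ℝ) ^ κ = 1 * (C1 * ((10 * a : ℕ) : ℝ) ^ κ) := (one_mul _).symm
          _ ≤ (exp (1 + 10 * k) * t ^ (1 + 10 * k)) * (C1 * ((10 * a : ℕ) : ℝ) ^ κ) :=
              mul_le_mul_of_nonneg_right hts h7
          _ = _ := by ring
      rw [mul_add]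
      linarith
    exact le_of_mul_le_mul_left h5 hs

end Pool.Agent.H450R4.NL
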