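import Pool.Agent.H450R4.NLCyl2

/-!
Sharp large deviations (up to constants) of the number of nested layers around the origin.
-/

namespace Pool.Agent.H450R4.NL
open Pool.Agent.H863R2.NL Pool.Agent.H863R2.NL.PowAux Real MeasureTheory Filter Topology H974

theorem ind1 {P : Prop} (h : P) : ind P = 1 := by
  unfold ind
  rw [if_pos h]

theorem ind0 {P : Prop} (h : ¬ P) : ind P = 0 := by
  unfold ind
  rw [if_neg h]

theorem EN_sum (n : ℕ) (s : Finset ℕ) (c : ℕ → ℝ) (g : ℕ → ℕ → ℝ) :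
    EN n (fun m => ∑ k ∈ s, c k * g k m) = ∑ k ∈ s, c k * EN n (g k) := by
  classical
  induction s using Finset.induction_on with
  | empty => simp only [Finset.sum_empty]; exact EN_const n 0
  | insert a s ha ih =>
    simp only [Finset.sum_insert ha]
    rw [EN_add, ih]
    congr 1
    exact EN_mul n (c a) (g a)

theorem geo {t : ℝ} (h0 : 0 ≤ t) (h1 : t < 1) (K : ℕ) :
    ∑ k ∈ Finset.range (K + 1), t ^ (K - k) ≤ (1 - t)⁻¹ := by
  have h := Finset.sum_range_reflect (fun j => t ^ j) (K + 1)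
  simp only [Nat.add_sub_cancel] at h
  rw [h, ← tsum_geometric_of_lt_one h0 h1]
  exact (summable_geometric_of_lt_one h0 h1).sum_le_tsum _ (fun i _ => pow_nonneg h0 i)

theorem cyl_le {θ : ℝ} (h0 : π / 3 < θ) (h1 : θ < π / 2) :
    ∃ C : ℝ, 0 < C ∧ ∀ᶠ n : ℕ in atTop, ∀ K : ℕ,
      (2 * cos θ) ^ K * EN n (fun m => ind (m ≤ K)) ≤
        C * ((n : ℝ) ^ psi (2 * cos θ) / √(log n)) := by
  obtain ⟨⟨C, hC, h⟩, -⟩ := cyl h0 h1
  have hpi := pi_pos
  have hcos : 0 < cos θ := cos_pos_of_mem_Ioo ⟨by linarith, h1⟩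
  have hc1 : cos θ < 1 / 2 := by
    have h2 := cos_lt_cos_of_nonneg_of_le_pi_div_two (by positivity : (0 : ℝ) ≤ π / 3) h1.le h0
    rwa [cos_pi_div_three] at h2
  set t : ℝ := 2 * cos θ with ht
  have ht0 : 0 < t := by linarith
  have ht1 : t < 1 := by linarith
  refine ⟨(1 - t)⁻¹ * C, mul_pos (inv_pos.2 (by linarith)) hC, ?_⟩
  filter_upwards [h] with n hn
  intro K
  set X : ℝ := (n : ℝ) ^ psi t / √(log n) with hX
  have hX0 : 0 ≤ X := by positivity
  rw [← EN_mul]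
  calc EN n (fun m => t ^ K * ind (m ≤ K)) ≤
      EN n (fun m => ∑ k ∈ Finset.range (K + 1), t ^ (K - k) * (if m = k then t ^ m else 0)) := by
        apply EN_mono
        intro m
        have hnn : ∀ k ∈ Finset.range (K + 1), 0 ≤ t ^ (K - k) * (if m = k then t ^ m else 0) := by
          intro k _
          split_ifs <;> positivity
        by_cases hm : m ≤ K
        · rw [ind1 hm, mul_one]
          have := Finset.single_le_sum hnn (Finset.mem_range.2 (by omega : m < K + 1))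
          simp only [if_true] at this
          rwa [← pow_add, Nat.sub_add_cancel hm] at this
        · rw [ind0 hm, mul_zero]
          exact Finset.sum_nonneg hnn
    _ = ∑ k ∈ Finset.range (K + 1), t ^ (K - k) * EN n (fun m => if m = k then t ^ m else 0) :=
        EN_sum n _ _ _
    _ ≤ ∑ k ∈ Finset.range (K + 1), t ^ (K - k) * (C * X) := by
        apply Finset.sum_le_sum
        intro k _
        exact mul_le_mul_of_nonneg_left (hn k) (by positivity)
    _ = (∑ k ∈ Finset.range (K + 1), t ^ (K - k)) * (C * X) := by rw [Finset.sum_mul]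
    _ ≤ (1 - t)⁻¹ * (C * X) := mul_le_mul_of_nonneg_right (geo ht0.le ht1 K) (by positivity)
    _ = _ := by ring

/-- comparison of the scales -/
theorem X_anti {ψ : ℝ} (hψ : ψ ≤ 0) {m n : ℕ} (hm : 2 ≤ m) (hmn : m ≤ n) :
    (n : ℝ) ^ ψ / √(log n) ≤ (m : ℝ) ^ ψ / √(log m) := by
  have hm0 : (2 : ℝ) ≤ m := by exact_mod_cast hm
  have hmn' : (m : ℝ) ≤ n := by exact_mod_cast hmn
  have h1 : (n : ℝ) ^ ψ ≤ (m : ℝ) ^ ψ := rpow_le_rpow_of_nonpos (by linarith) hmn' hψ
  have h2 : √(log m) ≤ √(log n) := sqrt_le_sqrt (log_le_log (by linarith) hmn')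
  have h3 : 0 < √(log m) := sqrt_pos.2 (log_pos (by linarith))
  exact div_le_div₀ (by positivity) h1 h3 h2

theorem X_quarter {ψ : ℝ} (hψ : ψ ≤ 0) (hψ1 : -(1 / 4) ≤ ψ) {m r : ℕ} (hr : 64 ≤ r)
    (hm : 2 ≤ m) (hmr : r ≤ 4 * m) :
    (m : ℝ) ^ ψ / √(log m) ≤ 2 * ((r : ℝ) ^ ψ / √(log r)) := by
  have hm0 : (2 : ℝ) ≤ m := by exact_mod_cast hm
  have hr0 : (64 : ℝ) ≤ r := by exact_mod_cast hr
  have hmr' : (r : ℝ) / 4 ≤ m := by
    have : (r : ℝ) ≤ 4 * m := by exact_mod_cast hmr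
    linarith
  have h1 : (m : ℝ) ^ ψ ≤ √2 * (r : ℝ) ^ ψ := by
    calc (m : ℝ) ^ ψ ≤ ((r : ℝ) / 4) ^ ψ := rpow_le_rpow_of_nonpos (by linarith) hmr' hψ
      _ = (r : ℝ) ^ ψ * (4 : ℝ) ^ (-ψ) := by
          rw [div_rpow (by linarith) (by norm_num), rpow_neg (by norm_num), div_eq_mul_inv]
      _ ≤ (r : ℝ) ^ ψ * √2 := by
          apply mul_le_mul_of_nonneg_left _ (by positivity)
          calc (4 : ℝ) ^ (-ψ) ≤ (4 : ℝ) ^ (1 / 4 : ℝ) :=
                rpow_le_rpow_of_exponent_le (by norm_num) (by linarith)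
            _ = √2 := by
                rw [show (4 : ℝ) = 2 ^ (2 : ℝ) by norm_num, ← rpow_mul (by norm_num), sqrt_eq_rpow]
                norm_num
      _ = _ := mul_comm _ _
  have hlog : 2 / 3 * log r ≤ log m := by
    have h2 : log ((r : ℝ) / 4) ≤ log m := log_le_log (by linarith) hmr'
    rw [log_div (by linarith) (by norm_num)] at h2
    have h3 : 3 * log 4 ≤ log r := by
      have h4 : log 64 ≤ log r := log_le_log (by norm_num) hr0
      have h5 : log 64 = 3 * log 4 := by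
        rw [show (64 : ℝ) = 4 ^ 3 by norm_num, log_pow]
        norm_num
      linarith
    linarith
  have hlr : 0 < log r := log_pos (by linarith)
  have h2 : √(2 / 3) * √(log r) ≤ √(log m) := by
    rw [← sqrt_mul (by norm_num)]
    exact sqrt_le_sqrt hlog
  have h3 : 0 < √(2 / 3) * √(log r) := by positivity
  calc (m : ℝ) ^ ψ / √(log m) ≤ (√2 * (r : ℝ) ^ ψ) / (√(2 / 3) * √(log r)) :=
        div_le_div₀ (by positivity) h1 h3 h2
    _ = (√2 / √(2 / 3)) * ((r : ℝ) ^ ψ / √(log r)) := by field_simp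
    _ ≤ 2 * ((r : ℝ) ^ ψ / √(log r)) := by
        apply mul_le_mul_of_nonneg_right _ (by positivity)
        rw [← sqrt_div (by norm_num), sqrt_le_left (by norm_num)]
        norm_num

theorem plane_upper {θ : ℝ} (h0 : π / 3 < θ) (h1 : θ < π / 2) :
    ∃ B : ℝ, 0 < B ∧ ∀ r : ℕ, 2 ≤ r → ∀ K : ℕ,
      (2 * cos θ) ^ K * ET r (fun m => ind (m ≤ K)) ≤
        B * ((r : ℝ) ^ psi (2 * cos θ) / √(log r)) := by
  obtain ⟨C1, hC1, h⟩ := cyl_le h0 h1
  obtain ⟨n1, hn1⟩ := eventually_atTop.1 h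
  obtain ⟨k, hk⟩ := RecAux.exists_k
  have hpi := pi_pos
  have hcos : 0 < cos θ := cos_pos_of_mem_Ioo ⟨by linarith, h1⟩
  have hc1 : cos θ < 1 / 2 := by
    have h2 := cos_lt_cos_of_nonneg_of_le_pi_div_two (by positivity : (0 : ℝ) ≤ π / 3) h1.le h0
    rwa [cos_pi_div_three] at h2
  have hψ := psi_cos (θ := θ) (by linarith) h1
  set t : ℝ := 2 * cos θ with ht
  set ψ : ℝ := psi t with hψd
  have hψ0 : ψ ≤ 0 := by
    rw [hψ]
    apply mul_nonpos_of_nonneg_of_nonpos (by positivity)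
    nlinarith
  have hψ1 : -(1 / 4) ≤ ψ := by
    rw [hψ]
    have h2 : θ ^ 2 ≤ π ^ 2 / 4 := by nlinarith
    have h3 : -(π ^ 2 / 4 - π ^ 2 / 9) ≤ π ^ 2 / 9 - θ ^ 2 := by linarith
    have h4 := mul_le_mul_of_nonneg_left h3 (by positivity : (0 : ℝ) ≤ 3 / (4 * π ^ 2))
    have h5 : 3 / (4 * π ^ 2) * -(π ^ 2 / 4 - π ^ 2 / 9) = -(5 / 48) := by
      field_simp
      norm_num
    linarith
  have ht0 : 0 < t := by linarith
  have ht1 : t < 1 := by linarith
  set R0 : ℕ := max n1 64 with hR0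
  have hR1 : n1 ≤ R0 := le_max_left _ _
  have hR2 : 64 ≤ R0 := le_max_right _ _
  set X : ℕ → ℝ := fun n => (n : ℝ) ^ ψ / √(log n) with hX
  have hXpos : ∀ n : ℕ, 2 ≤ n → 0 < X n := by
    intro n hn
    have hn' : (2 : ℝ) ≤ n := by exact_mod_cast hn
    have : 0 < log (n : ℝ) := log_pos (by linarith)
    simp only [hX]
    positivity
  set E1 : ℝ := C1 / t ^ (1 + 10 * k) with hE1
  have hE10 : 0 < E1 := by positivity
  refine ⟨max (2 * E1) (1 / X R0), lt_max_of_lt_left (by positivity), ?_⟩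
  set B : ℝ := max (2 * E1) (1 / X R0) with hB
  have hB1 : 2 * E1 ≤ B := le_max_left _ _
  have hB2 : 1 / X R0 ≤ B := le_max_right _ _
  have hB0 : 0 < B := by linarith
  intro r
  induction r using Nat.strong_induction_on with
  | _ r ih =>
    intro hr K
    show t ^ K * ET r (fun m => ind (m ≤ K)) ≤ B * X r
    have hanti : ∀ K : ℕ, Antitone (fun m : ℕ => ind (m ≤ K)) := by
      intro K a b hab
      exact ind_mono (fun h => hab.trans h)
    have hu1 : ∀ r, ET r (fun m => ind (m ≤ K)) ≤ 1 := by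
      intro r
      have := ET_le_ET (k := r) (g := fun m => ind (m ≤ K)) (g' := fun _ => 1) (fun m => by
        by_cases hm : m ≤ K
        · rw [ind1 hm]
        · rw [ind0 hm]; norm_num)
      rwa [ET_const] at this
    have hnn : ∀ K m : ℕ, 0 ≤ ind (m ≤ K) := by
      intro K m
      by_cases hm : m ≤ K
      · rw [ind1 hm]; norm_num
      · rw [ind0 hm]
    rcases Nat.lt_or_ge r R0 with hrR | hrR
    · have h2 : X R0 ≤ X r := X_anti hψ0 hr hrR.le
      have h3 : 1 ≤ B * X r := by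
        have h4 : 1 / X R0 * X R0 ≤ B * X r := mul_le_mul hB2 h2 (hXpos R0 (by omega)).le hB0.le
        rwa [one_div, inv_mul_cancel₀ (hXpos R0 (by omega)).ne'] at h4
      have h5 : t ^ K ≤ 1 := pow_le_one₀ ht0.le ht1.le
      have h6 : 0 ≤ ET r (fun m => ind (m ≤ K)) := RecAux.ET_nonneg r (hnn K)
      calc t ^ K * ET r (fun m => ind (m ≤ K)) ≤ 1 * 1 := mul_le_mul h5 (hu1 r) h6 (by norm_num)
        _ ≤ _ := by linarith
    · obtain ⟨a, ha⟩ : ∃ a : ℕ, a = r / 4 := ⟨_, rfl⟩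
      have e1 : 4 * a ≤ r := by omega
      have e2 : r ≤ 4 * a + 3 := by omega
      have e3 : 16 ≤ a := by omega
      have i1 : ET r (fun m => ind (m ≤ K)) ≤ ET (4 * a) (fun m => ind (m ≤ K)) :=
        ET_anti e1 (hanti K)
      have i2 := EN_ge (a := a) k (by omega) (hanti (K + 1 + 10 * k)) (hnn (K + 1 + 10 * k))
      have hfun : (fun m : ℕ => ind (m + 1 + 10 * k ≤ K + 1 + 10 * k)) = fun m => ind (m ≤ K) := by
        funext m
        by_cases hm : m ≤ K
        · rw [ind1 hm, ind1 (by omega)]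
        · rw [ind0 hm, ind0 (by omega)]
      rw [hfun] at i2
      have i3 := hn1 (10 * a) (by omega) (K + 1 + 10 * k)
      have i4 := ih (2 * a - 1) (by omega) (by omega) K
      have j1 : X (10 * a) ≤ X r := X_anti hψ0 hr (by omega)
      have j2 : X (2 * a - 1) ≤ 2 * X r := X_quarter hψ0 hψ1 (by omega) (by omega) (by omega)
      have htK : 0 < t ^ K := by positivity
      have j3 : 0 ≤ ET (2 * a - 1) (fun m => ind (m ≤ K)) := RecAux.ET_nonneg _ (hnn K)
      have j4 : t ^ K * EN (10 * a) (fun m => ind (m ≤ K + 1 + 10 * k)) ≤ E1 * X (10 * a) := by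
        have hs : (0 : ℝ) < t ^ (1 + 10 * k) := by positivity
        have e4 : t ^ (K + 1 + 10 * k) = t ^ (1 + 10 * k) * t ^ K := by
          rw [← pow_add]
          congr 1
          omega
        rw [e4, mul_assoc] at i3
        rw [hE1, div_mul_eq_mul_div, le_div_iff₀ hs]
        calc t ^ K * EN (10 * a) (fun m => ind (m ≤ K + 1 + 10 * k)) * t ^ (1 + 10 * k) =
            t ^ (1 + 10 * k) * (t ^ K * EN (10 * a) (fun m => ind (m ≤ K + 1 + 10 * k))) := by ring
          _ ≤ _ := i3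
      have j5 : t ^ K * (6 * (1 - (1/2 : ℝ) ^ 47) ^ (k + 1) *
          ET (2 * a - 1) (fun m => ind (m ≤ K))) ≤ 1 / 4 * (B * X (2 * a - 1)) := by
        calc t ^ K * (6 * (1 - (1/2 : ℝ) ^ 47) ^ (k + 1) * ET (2 * a - 1) (fun m => ind (m ≤ K))) =
            (6 * (1 - (1/2 : ℝ) ^ 47) ^ (k + 1)) *
              (t ^ K * ET (2 * a - 1) (fun m => ind (m ≤ K))) := by ring
          _ ≤ 1 / 4 * (t ^ K * ET (2 * a - 1) (fun m => ind (m ≤ K))) :=
              mul_le_mul_of_nonneg_right hk (by positivity)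
          _ ≤ 1 / 4 * (B * X (2 * a - 1)) := mul_le_mul_of_nonneg_left i4 (by norm_num)
      have j6 : t ^ K * ET r (fun m => ind (m ≤ K)) ≤
          t ^ K * (EN (10 * a) (fun m => ind (m ≤ K + 1 + 10 * k)) +
            6 * (1 - (1/2 : ℝ) ^ 47) ^ (k + 1) * ET (2 * a - 1) (fun m => ind (m ≤ K))) :=
        mul_le_mul_of_nonneg_left (i1.trans i2) htK.le
      have j7 : E1 * X (10 * a) ≤ B / 2 * X r := by
        calc E1 * X (10 * a) ≤ E1 * X r := mul_le_mul_of_nonneg_left j1 hE10.le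
          _ ≤ B / 2 * X r := mul_le_mul_of_nonneg_right (by linarith) (hXpos r hr).le
      have j8 : B * X (2 * a - 1) ≤ B * (2 * X r) := mul_le_mul_of_nonneg_left j2 hB0.le
      rw [mul_add] at j6
      linarith

theorem plane_lower {θ : ℝ} (h0 : π / 3 < θ) (h1 : θ < π / 2) :
    ∃ c : ℝ, 0 < c ∧ ∀ᶠ n : ℕ in atTop, c * ((n : ℝ) ^ psi (2 * cos θ) / √(log n)) ≤
      (2 * cos θ) ^ ⌊3 / (2 * π ^ 2) * (θ * cos θ / sin θ) * log n⌋₊ *
        ET n (fun m => ind (m ≤ ⌊3 / (2 * π ^ 2) * (θ * cos θ / sin θ) * log n⌋₊)) := by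
  have hpi := pi_pos
  have hcos : 0 < cos θ := cos_pos_of_mem_Ioo ⟨by linarith, h1⟩
  have hsin : 0 < sin θ := sin_pos_of_pos_of_lt_pi (by linarith) (by linarith)
  have hc1 : cos θ < 1 / 2 := by
    have h2 := cos_lt_cos_of_nonneg_of_le_pi_div_two (by positivity : (0 : ℝ) ≤ π / 3) h1.le h0
    rwa [cos_pi_div_three] at h2
  have hψ := psi_cos (θ := θ) (by linarith) h1
  have hlog3 : 0 ≤ log 3 := log_nonneg (by norm_num)
  have hθ0 : 0 < θ := by linarith
  set a : ℝ := 3 / (2 * π ^ 2) * (θ * cos θ / sin θ) with ha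
  have ha0 : 0 < a := by positivity
  obtain ⟨c, hc, h⟩ := (cyl h0 h1).2 (a * log 3 + 1) (by positivity)
  set t : ℝ := 2 * cos θ with ht
  set ψ : ℝ := psi t with hψd
  have hψ0 : ψ ≤ 0 := by
    rw [hψ]
    apply mul_nonpos_of_nonneg_of_nonpos (by positivity)
    nlinarith
  have ht0 : 0 < t := by linarith
  refine ⟨c * ((3 : ℝ) ^ ψ / √2), by positivity, ?_⟩
  have hmap : Tendsto (fun n : ℕ => 2 * n + 1) atTop atTop := by
    apply tendsto_atTop_mono (f := fun n : ℕ => n) (fun n => by omega) tendsto_id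
  filter_upwards [hmap.eventually h, eventually_ge_atTop 3] with n hn hn3
  have hn0 : (3 : ℝ) ≤ n := by exact_mod_cast hn3
  set L : ℝ := log n with hL
  have hL0 : 0 < L := log_pos (by linarith)
  set K : ℕ := ⌊a * L⌋₊ with hK
  have hK1 : (K : ℝ) ≤ a * L := Nat.floor_le (by positivity)
  have hK2 : a * L < K + 1 := Nat.lt_floor_add_one _
  have hl1 : L ≤ log ((2 * n + 1 : ℕ) : ℝ) := by
    apply log_le_log (by linarith)
    push_cast
    linarith
  have hl2 : log ((2 * n + 1 : ℕ) : ℝ) ≤ log 3 + L := by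
    rw [hL, ← log_mul (by norm_num) (by linarith)]
    apply log_le_log
    · push_cast; positivity
    · push_cast; linarith
  have hl3 : log ((2 * n + 1 : ℕ) : ℝ) ≤ 2 * L := by
    have e : 2 * L = log ((n : ℝ) ^ 2) := by rw [log_pow, ← hL]; norm_num
    rw [e]
    apply log_le_log
    · push_cast; positivity
    · push_cast; nlinarith
  have hk : |a * log ((2 * n + 1 : ℕ) : ℝ) - K| ≤ a * log 3 + 1 := by
    have k1 : a * L ≤ a * log ((2 * n + 1 : ℕ) : ℝ) := mul_le_mul_of_nonneg_left hl1 ha0.le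
    have k2 : a * log ((2 * n + 1 : ℕ) : ℝ) ≤ a * (log 3 + L) := mul_le_mul_of_nonneg_left hl2 ha0.le
    have k3 : 0 ≤ a * log 3 := by positivity
    rw [abs_le]
    constructor <;> linarith
  have m1 := hn K hk
  have m2 : EN (2 * n + 1) (fun m => if m = K then t ^ m else 0) ≤
      EN (2 * n + 1) (fun m => t ^ K * ind (m ≤ K)) := by
    apply EN_mono
    intro m
    split_ifs with hm
    · rw [hm, ind1 le_rfl, mul_one]
    · by_cases hmK : m ≤ K
      · rw [ind1 hmK]; positivity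
      · rw [ind0 hmK, mul_zero]
  rw [EN_mul] at m2
  have hanti : Antitone (fun m : ℕ => ind (m ≤ K)) := by
    intro a b hab
    exact ind_mono (fun h => hab.trans h)
  have m3 : EN (2 * n + 1) (fun m => ind (m ≤ K)) ≤ ET n (fun m => ind (m ≤ K)) :=
    EN_le (by omega) hanti
  have m4 := mul_le_mul_of_nonneg_left m3 (by positivity : (0 : ℝ) ≤ t ^ K)
  have m5 : (3 : ℝ) ^ ψ / √2 * ((n : ℝ) ^ ψ / √L) ≤
      ((2 * n + 1 : ℕ) : ℝ) ^ ψ / √(log ((2 * n + 1 : ℕ) : ℝ)) := by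
    have k1 : (3 : ℝ) ^ ψ * (n : ℝ) ^ ψ ≤ ((2 * n + 1 : ℕ) : ℝ) ^ ψ := by
      rw [← mul_rpow (by norm_num) (by linarith)]
      apply rpow_le_rpow_of_nonpos _ _ hψ0
      · push_cast; positivity
      · push_cast; linarith
    have k2 : √(log ((2 * n + 1 : ℕ) : ℝ)) ≤ √2 * √L := by
      rw [← sqrt_mul (by norm_num)]
      exact sqrt_le_sqrt hl3
    have k3 : 0 < √(log ((2 * n + 1 : ℕ) : ℝ)) := sqrt_pos.2 (by linarith)
    calc (3 : ℝ) ^ ψ / √2 * ((n : ℝ) ^ ψ / √L) = ((3 : ℝ) ^ ψ * (n : ℝ) ^ ψ) / (√2 * √L) := by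
          field_simp
      _ ≤ _ := div_le_div₀ (by positivity) k1 k3 k2
  calc c * ((3 : ℝ) ^ ψ / √2) * ((n : ℝ) ^ ψ / √L) =
      c * ((3 : ℝ) ^ ψ / √2 * ((n : ℝ) ^ ψ / √L)) := by ring
    _ ≤ c * (((2 * n + 1 : ℕ) : ℝ) ^ ψ / √(log ((2 * n + 1 : ℕ) : ℝ))) :=
        mul_le_mul_of_nonneg_left m5 hc.le
    _ ≤ _ := m1.trans (m2.trans m4)

/-- sharp large deviations -/
theorem sharp {θ : ℝ} (h0 : π / 3 < θ) (h1 : θ < π / 2) :
    ∃ c C : ℝ, 0 < c ∧ 0 < C ∧ ∀ᶠ n : ℕ in atTop,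
      c * ((n : ℝ) ^ (-(3 / (2 * π ^ 2) * (θ * cos θ / sin θ) * log (2 * cos θ) +
        3 / (4 * π ^ 2) * (θ ^ 2 - π ^ 2 / 9))) / √(log n)) ≤
      (bondLaw hlf).real {ω | (changes n ω : ℝ) ≤ 3 / (2 * π ^ 2) * (θ * cos θ / sin θ) * log n} ∧
      (bondLaw hlf).real {ω | (changes n ω : ℝ) ≤ 3 / (2 * π ^ 2) * (θ * cos θ / sin θ) * log n} ≤
      C * ((n : ℝ) ^ (-(3 / (2 * π ^ 2) * (θ * cos θ / sin θ) * log (2 * cos θ) +
        3 / (4 * π ^ 2) * (θ ^ 2 - π ^ 2 / 9))) / √(log n)) := by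
  obtain ⟨c, hc, hlow⟩ := plane_lower h0 h1
  obtain ⟨B, hB, hup⟩ := plane_upper h0 h1
  have hpi := pi_pos
  have hcos : 0 < cos θ := cos_pos_of_mem_Ioo ⟨by linarith, h1⟩
  have hsin : 0 < sin θ := sin_pos_of_pos_of_lt_pi (by linarith) (by linarith)
  have hc1 : cos θ < 1 / 2 := by
    have h2 := cos_lt_cos_of_nonneg_of_le_pi_div_two (by positivity : (0 : ℝ) ≤ π / 3) h1.le h0
    rwa [cos_pi_div_three] at h2
  have hψ := psi_cos (θ := θ) (by linarith) h1
  have hθ0 : 0 < θ := by linarith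
  set a : ℝ := 3 / (2 * π ^ 2) * (θ * cos θ / sin θ) with ha
  have ha0 : 0 < a := by positivity
  set t : ℝ := 2 * cos θ with ht
  have ht0 : 0 < t := by linarith
  have ht1 : t < 1 := by linarith
  set l : ℝ := log t with hl
  have hl0 : l < 0 := log_neg ht0 ht1
  have hI : a * l + 3 / (4 * π ^ 2) * (θ ^ 2 - π ^ 2 / 9) = a * l - psi t := by
    rw [hψ]
    ring
  rw [hI]
  refine ⟨c * t, B, by positivity, hB, ?_⟩
  filter_upwards [hlow, eventually_ge_atTop 2] with n hn hn2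
  have hn0 : (2 : ℝ) ≤ n := by exact_mod_cast hn2
  set L : ℝ := log n with hL
  have hL0 : 0 < L := log_pos (by linarith)
  set K : ℕ := ⌊a * L⌋₊ with hK
  have hK1 : (K : ℝ) ≤ a * L := Nat.floor_le (by positivity)
  have hK2 : a * L < K + 1 := Nat.lt_floor_add_one _
  have hP : (bondLaw hlf).real {ω | (changes n ω : ℝ) ≤ a * L} = ET n (fun m => ind (m ≤ K)) := by
    rw [← prob_changes n (fun m => m ≤ K)]
    congr 1
    ext ω
    simp only [Set.mem_ofPred_eq]
    rw [hK, Nat.le_floor_iff (by positivity)]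
  rw [hP]
  set P : ℝ := ET n (fun m => ind (m ≤ K)) with hPd
  have htK : t ^ K = exp (K * l) := by
    rw [hl, exp_nat_mul, exp_log ht0]
  have hnI : (n : ℝ) ^ (-(a * l - psi t)) = (n : ℝ) ^ psi t * exp (-(a * L * l)) := by
    rw [rpow_def_of_pos (by linarith), rpow_def_of_pos (by linarith), ← exp_add]
    congr 1
    rw [← hL]
    ring
  have hn' := hup n hn2 K
  rw [hnI]
  rw [htK] at hn hn'
  have hX : 0 < (n : ℝ) ^ psi t / √L := by positivity
  constructor
  · -- lower bound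
    have k1 : exp (K * l) ≤ exp (a * L * l) * t⁻¹ := by
      have e : t⁻¹ = exp (-l) := by rw [exp_neg, hl, exp_log ht0]
      rw [e, ← exp_add]
      apply exp_le_exp.2
      nlinarith
    have hP0 : 0 ≤ P := by
      rw [← hP]
      exact measureReal_nonneg
    have k2 : c * ((n : ℝ) ^ psi t / √L) ≤ exp (a * L * l) * t⁻¹ * P :=
      hn.trans (mul_le_mul_of_nonneg_right k1 hP0)
    have k3 : exp (-(a * L * l)) * exp (a * L * l) = 1 := by rw [← exp_add]; simp
    calc c * t * ((n : ℝ) ^ psi t * exp (-(a * L * l)) / √L) =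
        t * exp (-(a * L * l)) * (c * ((n : ℝ) ^ psi t / √L)) := by ring
      _ ≤ t * exp (-(a * L * l)) * (exp (a * L * l) * t⁻¹ * P) :=
          mul_le_mul_of_nonneg_left k2 (by positivity)
      _ = (t * t⁻¹) * (exp (-(a * L * l)) * exp (a * L * l)) * P := by ring
      _ = P := by rw [k3, mul_inv_cancel₀ ht0.ne']; ring
  · have k1 : exp (a * L * l) ≤ exp (K * l) := by
      apply exp_le_exp.2
      nlinarith
    have hP0 : 0 ≤ P := by
      rw [← hP]
      exact measureReal_nonneg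
    have k2 : exp (a * L * l) * P ≤ B * ((n : ℝ) ^ psi t / √L) :=
      (mul_le_mul_of_nonneg_right k1 hP0).trans hn'
    have k3 : exp (-(a * L * l)) * exp (a * L * l) = 1 := by rw [← exp_add]; simp
    calc P = (exp (-(a * L * l)) * exp (a * L * l)) * P := by rw [k3, one_mul]
      _ = exp (-(a * L * l)) * (exp (a * L * l) * P) := by ring
      _ ≤ exp (-(a * L * l)) * (B * ((n : ℝ) ^ psi t / √L)) :=
          mul_le_mul_of_nonneg_left k2 (exp_pos _).le
      _ = _ := by ring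

end Pool.Agent.H450R4.NL
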