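import Mathlib

/-!
Tails of a monotone sequence of random integers from bounds on the exponential moments
(large deviations, almost sure rate).
-/

namespace Pool.Agent.H450R4.NL
open MeasureTheory Filter Topology Real

section
variable {Ω : Type*} [MeasurableSpace Ω] {μ : Measure Ω} [IsProbabilityMeasure μ]

theorem int_exp {T : Ω → ℕ} (hm : Measurable T) {M : ℕ} (hb : ∀ ω, T ω ≤ M) (s : ℝ) :
    Integrable (fun ω => exp (s * (T ω : ℝ))) μ := by
  refine Integrable.of_bound (C := exp (|s| * M)) ?_ (Eventually.of_forall fun ω => ?_)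
  · exact ((measurable_of_countable (fun m : ℕ => exp (s * (m : ℝ)))).comp hm).aestronglyMeasurable
  · rw [norm_of_nonneg (exp_pos _).le]
    apply exp_le_exp.2
    have h1 : (T ω : ℝ) ≤ M := by exact_mod_cast hb ω
    have h2 : s * (T ω : ℝ) ≤ |s| * (T ω : ℝ) :=
      mul_le_mul_of_nonneg_right (le_abs_self s) (Nat.cast_nonneg _)
    have h3 : |s| * (T ω : ℝ) ≤ |s| * M := mul_le_mul_of_nonneg_left h1 (abs_nonneg _)
    linarith

theorem meas_ge {T : Ω → ℕ} (hm : Measurable T) (x : ℝ) : MeasurableSet {ω | x ≤ (T ω : ℝ)} :=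
  hm (MeasurableSet.of_discrete (s := {m : ℕ | x ≤ (m : ℝ)}))

theorem meas_le {T : Ω → ℕ} (hm : Measurable T) (x : ℝ) : MeasurableSet {ω | (T ω : ℝ) ≤ x} :=
  hm (MeasurableSet.of_discrete (s := {m : ℕ | (m : ℝ) ≤ x}))

/-- exponential Chebyshev inequality -/
theorem cheb {T : Ω → ℕ} (hm : Measurable T) {M : ℕ} (hb : ∀ ω, T ω ≤ M) {s x : ℝ} {P : Set Ω}
    (hPm : MeasurableSet P) (hP : ∀ ω ∈ P, s * x ≤ s * T ω) :
    μ.real P ≤ exp (-(s * x)) * ∫ ω, exp (s * (T ω : ℝ)) ∂μ := by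
  have h1 : μ.real P = ∫ ω, P.indicator (fun _ => (1 : ℝ)) ω ∂μ := by
    rw [integral_indicator_const _ hPm, smul_eq_mul, mul_one]
  rw [h1, ← integral_const_mul]
  apply integral_mono
  · exact (integrable_const (1 : ℝ)).indicator hPm
  · exact (int_exp hm hb s).const_mul _
  · intro ω
    by_cases h : ω ∈ P
    · simp only [Set.indicator_of_mem h]
      rw [← exp_add]
      apply one_le_exp
      have := hP ω h
      linarith
    · simp only [Set.indicator_of_notMem h]
      positivity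

/-- the lower bound of large deviations -/
theorem ldp_lower {T : ℕ → Ω → ℕ} (hm : ∀ n, Measurable (T n)) (hb : ∀ n ω, T n ω ≤ 2 * n)
    {Λ : ℝ → ℝ} (hU : ∀ s < 0, ∃ C : ℝ, 0 < C ∧ ∀ n : ℕ, 1 ≤ n →
      ∫ ω, exp (s * (T n ω : ℝ)) ∂μ ≤ C * exp (Λ s * log n))
    (hL : ∀ s < 0, ∃ c : ℝ, 0 < c ∧ ∀ n : ℕ, 1 ≤ n →
      c * exp (Λ s * log n) ≤ ∫ ω, exp (s * (T n ω : ℝ)) ∂μ)
    {s a a' : ℝ} (hs : s < 0) (hd : HasDerivAt Λ a s) (ha : a < a') {η : ℝ} (hη : 0 < η) :
    ∀ᶠ n : ℕ in atTop, exp (-(s * a - Λ s + η) * log n) ≤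
      μ.real {ω | (T n ω : ℝ) ≤ a' * log n} := by
  set ε : ℝ := min (a' - a) (η / (2 * (-s))) with hε
  have hs' : 0 < -s := by linarith
  have hε0 : 0 < ε := lt_min (by linarith) (by positivity)
  have hε1 : ε ≤ a' - a := min_le_left _ _
  have hε2 : (-s) * ε ≤ η / 2 := by
    have h1 : ε ≤ η / (2 * (-s)) := min_le_right _ _
    have h2 : (-s) * ε ≤ (-s) * (η / (2 * (-s))) := mul_le_mul_of_nonneg_left h1 hs'.le
    have h3 : (-s) * (η / (2 * (-s))) = η / 2 := by
      have hs2 : -s ≠ 0 := hs'.ne'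
      calc (-s) * (η / (2 * (-s))) = η / 2 * ((-s) / (-s)) := by ring
        _ = η / 2 := by rw [div_self hs2, mul_one]
    linarith
  obtain ⟨δ, hδ0, hδs, hδ1, hδ2⟩ : ∃ δ : ℝ, 0 < δ ∧ s + δ < 0 ∧ Λ (s + δ) ≤ Λ s + δ * (a + ε / 2) ∧
      Λ (s - δ) ≤ Λ s - δ * (a - ε / 2) := by
    have h := (hasDerivAt_iff_isLittleO.1 hd).def (half_pos hε0)
    obtain ⟨r, hr0, hr⟩ := Metric.eventually_nhds_iff.1 h
    refine ⟨min (r / 2) (-s / 2), lt_min (by linarith) (by linarith), ?_, ?_, ?_⟩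
    · have := min_le_right (r / 2) (-s / 2)
      linarith
    · set δ := min (r / 2) (-s / 2)
      have h0 : 0 < δ := lt_min (by linarith) (by linarith)
      have h1 : δ ≤ r / 2 := min_le_left _ _
      have h2 := hr (y := s + δ) (by rw [dist_eq]; simp only [add_sub_cancel_left]; rw [abs_of_pos h0]; linarith)
      simp only [add_sub_cancel_left, norm_eq_abs, smul_eq_mul, abs_of_pos h0] at h2
      have h3 := (abs_le.1 h2).2
      linarith
    · set δ := min (r / 2) (-s / 2)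
      have h0 : 0 < δ := lt_min (by linarith) (by linarith)
      have h1 : δ ≤ r / 2 := min_le_left _ _
      have e : s - δ - s = -δ := by ring
      have h2 := hr (y := s - δ) (by rw [dist_eq, e, abs_neg, abs_of_pos h0]; linarith)
      rw [e] at h2
      simp only [norm_eq_abs, smul_eq_mul, abs_neg, abs_of_pos h0] at h2
      have h3 := (abs_le.1 h2).2
      linarith
  obtain ⟨C1, hC1, hU1⟩ := hU (s + δ) hδs
  obtain ⟨C2, hC2, hU2⟩ := hU (s - δ) (by linarith)
  obtain ⟨c, hc, hL1⟩ := hL s hs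
  have hlog : Tendsto (fun n : ℕ => log (n : ℝ)) atTop atTop :=
    tendsto_log_atTop.comp tendsto_natCast_atTop_atTop
  have hδε : 0 < δ * ε / 2 := by positivity
  have l1 : Tendsto (fun n : ℕ => (C1 + C2) * exp (-(δ * ε / 2 * log n))) atTop
      (𝓝 ((C1 + C2) * 0)) :=
    ((tendsto_exp_neg_atTop_nhds_zero).comp (hlog.const_mul_atTop hδε)).const_mul _
  rw [mul_zero] at l1
  have l2 : Tendsto (fun n : ℕ => exp (-(η / 2 * log n))) atTop (𝓝 0) :=
    (tendsto_exp_neg_atTop_nhds_zero).comp (hlog.const_mul_atTop (half_pos hη))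
  filter_upwards [l1.eventually_lt_const (half_pos hc), l2.eventually_lt_const (half_pos hc),
    eventually_ge_atTop 1] with n h1 h2 hn
  set L : ℝ := log n with hLdef
  have hL0 : 0 ≤ L := log_natCast_nonneg n
  set P : Set Ω := {ω | (T n ω : ℝ) ≤ a' * L} with hPdef
  have hPm : MeasurableSet P := meas_le (hm n) _
  -- pointwise inequality
  have key : ∫ ω, exp (s * (T n ω : ℝ)) ∂μ ≤ ∫ ω, (exp (s * ((a - ε) * L)) *
      P.indicator (fun _ => (1 : ℝ)) ω + (exp (-(δ * ((a + ε) * L))) * exp ((s + δ) * (T n ω : ℝ)) +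
        exp (δ * ((a - ε) * L)) * exp ((s - δ) * (T n ω : ℝ)))) ∂μ := by
    apply integral_mono (int_exp (hm n) (hb n) s)
    · refine Integrable.add ?_ (Integrable.add ?_ ?_)
      · exact ((integrable_const (1 : ℝ)).indicator hPm).const_mul _
      · exact (int_exp (hm n) (hb n) _).const_mul _
      · exact (int_exp (hm n) (hb n) _).const_mul _
    · intro ω
      simp only
      set x : ℝ := (T n ω : ℝ) with hx
      have p1 : 0 < exp (-(δ * ((a + ε) * L))) * exp ((s + δ) * x) := by positivity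
      have p2 : 0 < exp (δ * ((a - ε) * L)) * exp ((s - δ) * x) := by positivity
      have p3 : 0 ≤ exp (s * ((a - ε) * L)) * P.indicator (fun _ => (1 : ℝ)) ω := by
        apply mul_nonneg (exp_pos _).le
        exact Set.indicator_nonneg (fun _ _ => zero_le_one) _
      rcases lt_or_ge ((a + ε) * L) x with hx1 | hx1
      · have : exp (s * x) ≤ exp (-(δ * ((a + ε) * L))) * exp ((s + δ) * x) := by
          rw [← exp_add]
          apply exp_le_exp.2
          have := mul_lt_mul_of_pos_left hx1 hδ0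
          linarith
        linarith
      · rcases lt_or_ge x ((a - ε) * L) with hx2 | hx2
        · have : exp (s * x) ≤ exp (δ * ((a - ε) * L)) * exp ((s - δ) * x) := by
            rw [← exp_add]
            apply exp_le_exp.2
            have := mul_lt_mul_of_pos_left hx2 hδ0
            linarith
          linarith
        · have hmem : ω ∈ P := by
            show x ≤ a' * L
            have : (a + ε) * L ≤ a' * L := mul_le_mul_of_nonneg_right (by linarith) hL0
            linarith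
          rw [Set.indicator_of_mem hmem, mul_one]
          have : exp (s * x) ≤ exp (s * ((a - ε) * L)) := by
            apply exp_le_exp.2
            exact mul_le_mul_of_nonpos_left hx2 hs.le
          linarith
  have i1 : Integrable (fun ω => exp (s * ((a - ε) * L)) * P.indicator (fun _ => (1 : ℝ)) ω) μ :=
    ((integrable_const (1 : ℝ)).indicator hPm).const_mul _
  have i2 : Integrable (fun ω => exp (-(δ * ((a + ε) * L))) * exp ((s + δ) * (T n ω : ℝ))) μ :=
    (int_exp (hm n) (hb n) _).const_mul _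
  have i3 : Integrable (fun ω => exp (δ * ((a - ε) * L)) * exp ((s - δ) * (T n ω : ℝ))) μ :=
    (int_exp (hm n) (hb n) _).const_mul _
  have i23 : Integrable (fun ω => exp (-(δ * ((a + ε) * L))) * exp ((s + δ) * (T n ω : ℝ)) +
      exp (δ * ((a - ε) * L)) * exp ((s - δ) * (T n ω : ℝ))) μ := i2.add i3
  rw [integral_add i1 i23, integral_add i2 i3,
    integral_const_mul, integral_const_mul, integral_const_mul,
    integral_indicator_const _ hPm, smul_eq_mul, mul_one] at key
  have k1 := hL1 n hn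
  have k2 : exp (-(δ * ((a + ε) * L))) * ∫ ω, exp ((s + δ) * (T n ω : ℝ)) ∂μ ≤
      C1 * (exp (-(δ * ε / 2 * L)) * exp (Λ s * L)) := by
    calc exp (-(δ * ((a + ε) * L))) * ∫ ω, exp ((s + δ) * (T n ω : ℝ)) ∂μ ≤
        exp (-(δ * ((a + ε) * L))) * (C1 * exp (Λ (s + δ) * L)) :=
          mul_le_mul_of_nonneg_left (hU1 n hn) (exp_pos _).le
      _ = C1 * exp (-(δ * ((a + ε) * L)) + Λ (s + δ) * L) := by rw [exp_add]; ring
      _ ≤ C1 * exp (-(δ * ε / 2 * L) + Λ s * L) := by
          apply mul_le_mul_of_nonneg_left _ hC1.le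
          apply exp_le_exp.2
          have := mul_le_mul_of_nonneg_right hδ1 hL0
          nlinarith
      _ = _ := by rw [exp_add]
  have k3 : exp (δ * ((a - ε) * L)) * ∫ ω, exp ((s - δ) * (T n ω : ℝ)) ∂μ ≤
      C2 * (exp (-(δ * ε / 2 * L)) * exp (Λ s * L)) := by
    calc exp (δ * ((a - ε) * L)) * ∫ ω, exp ((s - δ) * (T n ω : ℝ)) ∂μ ≤
        exp (δ * ((a - ε) * L)) * (C2 * exp (Λ (s - δ) * L)) :=
          mul_le_mul_of_nonneg_left (hU2 n hn) (exp_pos _).le
      _ = C2 * exp (δ * ((a - ε) * L) + Λ (s - δ) * L) := by rw [exp_add]; ring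
      _ ≤ C2 * exp (-(δ * ε / 2 * L) + Λ s * L) := by
          apply mul_le_mul_of_nonneg_left _ hC2.le
          apply exp_le_exp.2
          have := mul_le_mul_of_nonneg_right hδ2 hL0
          nlinarith
      _ = _ := by rw [exp_add]
  have k4 : (C1 + C2) * exp (-(δ * ε / 2 * L)) * exp (Λ s * L) ≤ c / 2 * exp (Λ s * L) :=
    mul_le_mul_of_nonneg_right h1.le (exp_pos _).le
  have k5 : c / 2 * exp (Λ s * L) ≤ exp (s * ((a - ε) * L)) * μ.real P := by nlinarith
  have k6 : exp (-(η / 2 * L)) * exp (Λ s * L) ≤ exp (s * ((a - ε) * L)) * μ.real P :=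
    (mul_le_mul_of_nonneg_right h2.le (exp_pos _).le).trans k5
  have k7 : exp (-(s * a - Λ s + η) * L) * exp (s * ((a - ε) * L)) ≤
      exp (-(η / 2 * L)) * exp (Λ s * L) := by
    rw [← exp_add, ← exp_add]
    apply exp_le_exp.2
    have := mul_le_mul_of_nonneg_right hε2 hL0
    nlinarith
  have k8 : exp (-(s * a - Λ s + η) * L) * exp (s * ((a - ε) * L)) ≤
      μ.real P * exp (s * ((a - ε) * L)) := by
    rw [mul_comm (μ.real P)]
    exact k7.trans k6
  exact le_of_mul_le_mul_right k8 (exp_pos _)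

/-- lower tail: large deviation principle -/
theorem ldp {T : ℕ → Ω → ℕ} (hm : ∀ n, Measurable (T n)) (hb : ∀ n ω, T n ω ≤ 2 * n)
    {Λ : ℝ → ℝ} (hU : ∀ s < 0, ∃ C : ℝ, 0 < C ∧ ∀ n : ℕ, 1 ≤ n →
      ∫ ω, exp (s * (T n ω : ℝ)) ∂μ ≤ C * exp (Λ s * log n))
    (hL : ∀ s < 0, ∃ c : ℝ, 0 < c ∧ ∀ n : ℕ, 1 ≤ n →
      c * exp (Λ s * log n) ≤ ∫ ω, exp (s * (T n ω : ℝ)) ∂μ)
    {s a : ℝ} (hs : s < 0)
    (hap : ∀ η > 0, ∃ s' < 0, ∃ a' < a, HasDerivAt Λ a' s' ∧
      s' * a' - Λ s' ≤ s * a - Λ s + η) :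
    Tendsto (fun n : ℕ => log (μ.real {ω | (T n ω : ℝ) ≤ a * log n}) / log n) atTop
      (𝓝 (-(s * a - Λ s))) := by
  obtain ⟨C, hC, hU1⟩ := hU s hs
  have hlog : Tendsto (fun n : ℕ => log (n : ℝ)) atTop atTop :=
    tendsto_log_atTop.comp tendsto_natCast_atTop_atTop
  rw [Metric.tendsto_nhds]
  intro ε hε
  obtain ⟨s', hs', a', ha', hd, hI⟩ := hap (ε / 4) (by linarith)
  have h1 := ldp_lower hm hb hU hL hs' hd ha' (η := ε / 4) (by linarith)
  have l1 : Tendsto (fun n : ℕ => log C / log (n : ℝ)) atTop (𝓝 0) := hlog.const_div_atTop _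
  filter_upwards [h1, l1.eventually_lt_const (half_pos hε), eventually_ge_atTop 1,
    hlog.eventually_gt_atTop 0] with n k1 k2 hn hn0
  set L : ℝ := log n
  set p : ℝ := μ.real {ω | (T n ω : ℝ) ≤ a * L}
  have hp0 : 0 < p := lt_of_lt_of_le (exp_pos _) k1
  have k3 : p ≤ exp (-(s * (a * L))) * ∫ ω, exp (s * (T n ω : ℝ)) ∂μ := by
    apply cheb (hm n) (hb n) (meas_le (hm n) _)
    intro ω hω
    exact mul_le_mul_of_nonpos_left hω hs.le
  have k4 : p ≤ C * exp (-(s * a - Λ s) * L) := by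
    calc p ≤ exp (-(s * (a * L))) * (C * exp (Λ s * L)) :=
          k3.trans (mul_le_mul_of_nonneg_left (hU1 n hn) (exp_pos _).le)
      _ = C * (exp (-(s * (a * L))) * exp (Λ s * L)) := by ring
      _ = _ := by rw [← exp_add]; congr 2; ring
  have k5 : log p ≤ log C + -(s * a - Λ s) * L := by
    have := log_le_log hp0 k4
    rwa [log_mul hC.ne' (exp_pos _).ne', log_exp] at this
  have k6 : -(s' * a' - Λ s' + ε / 4) * L ≤ log p := by
    have := log_le_log (exp_pos _) k1
    rwa [log_exp] at this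
  rw [dist_eq, abs_lt]
  constructor
  · have : -(s' * a' - Λ s' + ε / 4) ≤ log p / L := by
      rw [le_div_iff₀ hn0]
      exact k6
    linarith
  · have : log p / L ≤ log C / L + -(s * a - Λ s) := by
      rw [div_le_iff₀ hn0, add_mul, div_mul_cancel₀ _ hn0.ne']
      exact k5
    linarith

end

end Pool.Agent.H450R4.NL
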