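import Mathlib

/-!
Convergence of the variance from the central limit theorem and a bound on the fourth moments.
-/

namespace Pool.Agent.H450R4.NL
open MeasureTheory ProbabilityTheory Filter Topology Real Set

section
variable {Ω : Type*} [MeasurableSpace Ω] {μ : Measure Ω} [IsProbabilityMeasure μ]

theorem compl_le {X : Ω → ℝ} (hX : Measurable X) (x : ℝ) :
    μ.real {ω | x < X ω} = 1 - μ.real {ω | X ω ≤ x} := by
  have h : {ω | x < X ω} = {ω | X ω ≤ x}ᶜ := by
    ext ω
    simp
  rw [h, probReal_compl_eq_one_sub (measurableSet_le hX measurable_const)]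

/-- second moment from the distribution function -/
theorem sq_layer {X : Ω → ℝ} (hX : Measurable X) (hint : Integrable (fun ω => X ω ^ 2) μ) :
    ∫ ω, X ω ^ 2 ∂μ = (∫ t in Ioi (0 : ℝ), (1 - μ.real {ω | X ω ≤ √t})) +
      ∫ t in Ioi (0 : ℝ), μ.real {ω | X ω ≤ -√t} := by
  have hf : Integrable (fun ω => (max (X ω) 0) ^ 2) μ := by
    refine Integrable.mono' hint ((hX.max measurable_const).pow_const 2).aestronglyMeasurable
      (Eventually.of_forall fun ω => ?_)
    rw [norm_of_nonneg (by positivity)]
    rcases le_total (X ω) 0 with h | h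
    · rw [max_eq_right h]
      calc (0 : ℝ) ^ 2 = 0 := by norm_num
        _ ≤ _ := sq_nonneg _
    · rw [max_eq_left h]
  have hg : Integrable (fun ω => (max (-X ω) 0) ^ 2) μ := by
    refine Integrable.mono' hint ((hX.neg.max measurable_const).pow_const 2).aestronglyMeasurable
      (Eventually.of_forall fun ω => ?_)
    rw [norm_of_nonneg (by positivity)]
    rcases le_total (-X ω) 0 with h | h
    · rw [max_eq_right h]
      calc (0 : ℝ) ^ 2 = 0 := by norm_num
        _ ≤ _ := sq_nonneg _
    · rw [max_eq_left h]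
      exact le_of_eq (by ring)
  have h1 : ∫ ω, X ω ^ 2 ∂μ = (∫ ω, (max (X ω) 0) ^ 2 ∂μ) + ∫ ω, (max (-X ω) 0) ^ 2 ∂μ := by
    rw [← integral_add hf hg]
    congr 1
    funext ω
    rcases le_total (X ω) 0 with h | h
    · rw [max_eq_right h, max_eq_left (by linarith)]
      ring
    · rw [max_eq_left h, max_eq_right (by linarith)]
      ring
  rw [h1, hf.integral_eq_integral_meas_lt (Eventually.of_forall fun ω => by positivity),
    hg.integral_eq_integral_meas_le (Eventually.of_forall fun ω => by positivity)]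
  congr 1
  · apply setIntegral_congr_fun measurableSet_Ioi
    intro t ht
    have ht : 0 < t := ht
    simp only
    rw [← compl_le hX]
    congr 1
    ext ω
    simp only [mem_ofPred_eq]
    constructor
    · intro h
      rcases le_total (X ω) 0 with h' | h'
      · rw [max_eq_right h'] at h
        norm_num at h
        linarith
      · rw [max_eq_left h'] at h
        rw [sqrt_lt' (by
          rcases h'.eq_or_lt with h'' | h''
          · rw [← h''] at h
            norm_num at h
            linarith
          · exact h'')]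
        exact h
    · intro h
      have h' : 0 < X ω := lt_of_le_of_lt (sqrt_nonneg t) h
      rw [max_eq_left h'.le]
      exact (sqrt_lt' h').1 h
  · apply setIntegral_congr_fun measurableSet_Ioi
    intro t ht
    have ht : 0 < t := ht
    simp only
    congr 1
    ext ω
    simp only [mem_ofPred_eq]
    constructor
    · intro h
      rcases le_total (-X ω) 0 with h' | h'
      · rw [max_eq_right h'] at h
        norm_num at h
        linarith
      · rw [max_eq_left h'] at h
        have := (sqrt_le_left h').2 h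
        linarith
    · intro h
      have h' : √t ≤ -X ω := by linarith
      have h'' : 0 ≤ -X ω := (sqrt_nonneg t).trans h'
      rw [max_eq_left h'']
      exact (sqrt_le_left h'').1 h'

theorem anti1 {X : Ω → ℝ} : Antitone (fun t : ℝ => 1 - μ.real {ω | X ω ≤ √t}) := by
  intro a b hab
  simp only
  have : μ.real {ω | X ω ≤ √a} ≤ μ.real {ω | X ω ≤ √b} := by
    refine measureReal_mono ?_ (measure_ne_top _ _)
    intro ω hω
    exact le_trans hω (sqrt_le_sqrt hab)
  linarith

theorem anti2 {X : Ω → ℝ} : Antitone (fun t : ℝ => μ.real {ω | X ω ≤ -√t}) := by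
  intro a b hab
  simp only
  refine measureReal_mono ?_ (measure_ne_top _ _)
  intro ω hω
  have h1 : √a ≤ √b := sqrt_le_sqrt hab
  have h2 : X ω ≤ -√b := hω
  show X ω ≤ -√a
  linarith

theorem markov4 {X : Ω → ℝ} (hint : Integrable (fun ω => 1 + X ω ^ 4) μ) {M : ℝ}
    (hM : ∫ ω, (1 + X ω ^ 4) ∂μ ≤ M) {t : ℝ} {P : Set Ω} (hP : ∀ ω ∈ P, t ^ 2 ≤ X ω ^ 4) :
    μ.real P ≤ M * (1 + t ^ 2)⁻¹ := by
  have h1 := mul_meas_ge_le_integral_of_nonneg (μ := μ) (f := fun ω => 1 + X ω ^ 4)
    (Eventually.of_forall fun ω => by positivity) hint (1 + t ^ 2)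
  have h2 : μ.real P ≤ μ.real {ω | 1 + t ^ 2 ≤ 1 + X ω ^ 4} := by
    refine measureReal_mono ?_ (measure_ne_top _ _)
    intro ω hω
    have := hP ω hω
    show 1 + t ^ 2 ≤ 1 + X ω ^ 4
    linarith
  have h3 : 0 < 1 + t ^ 2 := by positivity
  rw [← div_eq_mul_inv, le_div_iff₀ h3]
  calc μ.real P * (1 + t ^ 2) ≤ μ.real {ω | 1 + t ^ 2 ≤ 1 + X ω ^ 4} * (1 + t ^ 2) :=
        mul_le_mul_of_nonneg_right h2 h3.le
    _ = (1 + t ^ 2) * μ.real {ω | 1 + t ^ 2 ≤ 1 + X ω ^ 4} := mul_comm _ _
    _ ≤ _ := h1
    _ ≤ M := hM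

/-- convergence of the second moments -/
theorem sq_lim {X : ℕ → Ω → ℝ} (hX : ∀ n, Measurable (X n))
    (h2 : ∀ n, Integrable (fun ω => X n ω ^ 2) μ) (h4 : ∀ n, Integrable (fun ω => 1 + X n ω ^ 4) μ)
    {v : NNReal} (hF : ∀ x : ℝ, Tendsto (fun n => μ.real {ω | X n ω ≤ x}) atTop
      (𝓝 ((gaussianReal 0 v).real (Iic x)))) {M : ℝ}
    (hM : ∀ᶠ n in atTop, ∫ ω, (1 + X n ω ^ 4) ∂μ ≤ M) :
    Tendsto (fun n => ∫ ω, X n ω ^ 2 ∂μ) atTop (𝓝 (v : ℝ)) := by
  have hG : ∫ x, x ^ 2 ∂(gaussianReal 0 v) = v := by
    have h := variance_id_gaussianReal (μ := 0) (v := v)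
    rw [variance_eq_integral aemeasurable_id] at h
    simp only [id] at h
    rw [integral_id_gaussianReal] at h
    simpa using h
  have hGint : Integrable (fun x : ℝ => x ^ 2) (gaussianReal 0 v) := by
    have := (memLp_id_gaussianReal (μ := 0) (v := v) 2).integrable_sq
    simpa using this
  have hGl := sq_layer (μ := gaussianReal 0 v) (X := fun x : ℝ => x) measurable_id hGint
  rw [hG] at hGl
  rw [hGl]
  simp_rw [fun n => sq_layer (hX n) (h2 n)]
  have hbi : Integrable (fun t : ℝ => M * (1 + t ^ 2)⁻¹) (volume.restrict (Ioi 0)) :=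
    (integrable_inv_one_add_sq.const_mul M).mono_measure Measure.restrict_le_self
  apply Tendsto.add
  · apply tendsto_integral_filter_of_dominated_convergence (fun t : ℝ => M * (1 + t ^ 2)⁻¹)
    · exact Eventually.of_forall fun n => (anti1 (μ := μ) (X := X n)).measurable.aestronglyMeasurable
    · filter_upwards [hM] with n hn
      filter_upwards [ae_restrict_mem measurableSet_Ioi] with t ht
      have ht : 0 < t := ht
      rw [← compl_le (hX n), norm_of_nonneg measureReal_nonneg]
      apply markov4 (h4 n) hn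
      intro ω hω
      have h5 : √t < X n ω := hω
      have h6 : t ≤ X n ω ^ 2 := by
        rw [← sqrt_le_left (by linarith [sqrt_nonneg t])]
        exact h5.le
      calc t ^ 2 ≤ (X n ω ^ 2) ^ 2 := pow_le_pow_left₀ ht.le h6 2
        _ = _ := by ring
    · exact hbi
    · apply Eventually.of_forall
      intro t
      exact (hF (√t)).const_sub 1
  · apply tendsto_integral_filter_of_dominated_convergence (fun t : ℝ => M * (1 + t ^ 2)⁻¹)
    · exact Eventually.of_forall fun n => (anti2 (μ := μ) (X := X n)).measurable.aestronglyMeasurable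
    · filter_upwards [hM] with n hn
      filter_upwards [ae_restrict_mem measurableSet_Ioi] with t ht
      have ht : 0 < t := ht
      rw [norm_of_nonneg measureReal_nonneg]
      apply markov4 (h4 n) hn
      intro ω hω
      have h5 : X n ω ≤ -√t := hω
      have h6 : t ≤ (-X n ω) ^ 2 := by
        rw [← sqrt_le_left (by linarith [sqrt_nonneg t])]
        linarith
      calc t ^ 2 ≤ ((-X n ω) ^ 2) ^ 2 := pow_le_pow_left₀ ht.le h6 2
        _ = _ := by ring
    · exact hbi
    · apply Eventually.of_forall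
      intro t
      exact hF (-√t)

end

end Pool.Agent.H450R4.NL
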