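import Pool.Agent.H450R4.NLMain
import Pool.Agent.H450R4.NLVar
import Pool.Agent.H863R2.NL.CLTT

/-!
Critical bond percolation on the square lattice: asymptotics of the variance of the number of nested
layers around the origin.
-/

namespace Pool.Agent.H450R4.NL
open Pool.Agent.H863R2.NL Pool.Agent.H863R2.NL.PowAux Real MeasureTheory ProbabilityTheory Filter
  Topology H974

theorem int_any {Ω : Type*} [MeasurableSpace Ω] {μ : Measure Ω} [IsProbabilityMeasure μ]
    {T : Ω → ℕ} (hm : Measurable T) {M : ℕ} (hb : ∀ ω, T ω ≤ M) (g : ℕ → ℝ) :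
    Integrable (fun ω => g (T ω)) μ := by
  refine Integrable.of_bound (C := ∑ m ∈ Finset.range (M + 1), |g m|) ?_
    (Eventually.of_forall fun ω => ?_)
  · exact ((measurable_of_countable g).comp hm).aestronglyMeasurable
  · rw [norm_eq_abs]
    exact Finset.single_le_sum (f := fun m => |g m|) (fun m _ => abs_nonneg _)
      (Finset.mem_range.2 (by have := hb ω; omega))

theorem fourth : ∃ M : ℝ, ∀ᶠ n : ℕ in atTop,
    ∫ ω, (1 + (((changes n ω : ℝ) - cN * log n) / √(log n)) ^ 4) ∂(bondLaw hlf) ≤ M := by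
  obtain ⟨C1, hC1, h1⟩ := mom_up
  obtain ⟨C2, hC2, h2⟩ := mom_dn
  have hc := cN_pos
  have hv := vN_pos
  have hlog : Tendsto (fun n : ℕ => log (n : ℝ)) atTop atTop :=
    tendsto_log_atTop.comp tendsto_natCast_atTop_atTop
  refine ⟨1 + 24 * ((C1 + C2) * exp (vN + cN)), ?_⟩
  filter_upwards [hlog.eventually_ge_atTop 4, eventually_ge_atTop 1] with n hL hn
  set L : ℝ := log n with hLd
  have hL0 : 0 < L := by linarith
  have hs : 2 ≤ √L := by
    rw [le_sqrt (by norm_num) hL0.le]
    linarith
  have hs0 : 0 < √L := by linarith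
  set l : ℝ := 1 / √L with hl
  have hl0 : 0 < l := by positivity
  have hl1 : l ≤ 1 / 2 := by
    rw [hl]
    exact one_div_le_one_div_of_le (by norm_num) hs
  have hl2 : l ^ 2 * L = 1 := by
    rw [hl, div_pow, one_pow, sq_sqrt hL0.le]
    field_simp
  have hX : ∀ ω : sqLattice.edgeSet → Bool, ((changes n ω : ℝ) - cN * L) / √L =
      l * (changes n ω : ℝ) - l * (cN * L) := by
    intro ω
    rw [hl]
    ring
  have i1 : Integrable (fun ω => exp (l * (changes n ω : ℝ))) (bondLaw hlf) :=
    int_exp (meas_changes n) (changes_le n) l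
  have i2 : Integrable (fun ω => exp (-l * (changes n ω : ℝ))) (bondLaw hlf) :=
    int_exp (meas_changes n) (changes_le n) (-l)
  have i3 : Integrable (fun ω => exp (-(l * (cN * L))) * exp (l * (changes n ω : ℝ)))
      (bondLaw hlf) := i1.const_mul _
  have i4 : Integrable (fun ω => exp (l * (cN * L)) * exp (-l * (changes n ω : ℝ)))
      (bondLaw hlf) := i2.const_mul _
  have i5 : Integrable (fun ω => exp (-(l * (cN * L))) * exp (l * (changes n ω : ℝ)) +
      exp (l * (cN * L)) * exp (-l * (changes n ω : ℝ))) (bondLaw hlf) := i3.add i4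
  have k1 : ∫ ω, (1 + (((changes n ω : ℝ) - cN * L) / √L) ^ 4) ∂(bondLaw hlf) ≤
      ∫ ω, (1 + 24 * (exp (-(l * (cN * L))) * exp (l * (changes n ω : ℝ)) +
        exp (l * (cN * L)) * exp (-l * (changes n ω : ℝ)))) ∂(bondLaw hlf) := by
    apply integral_mono
    · exact int_any (meas_changes n) (changes_le n)
        (fun m => 1 + (((m : ℝ) - cN * L) / √L) ^ 4)
    · exact (integrable_const _).add (i5.const_mul 24)
    · intro ω
      simp only
      rw [hX]
      set x : ℝ := l * (changes n ω : ℝ) - l * (cN * L) with hx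
      have e1 : exp (-(l * (cN * L))) * exp (l * (changes n ω : ℝ)) = exp x := by
        rw [← exp_add, hx]
        congr 1
        ring
      have e2 : exp (l * (cN * L)) * exp (-l * (changes n ω : ℝ)) = exp (-x) := by
        rw [← exp_add, hx]
        congr 1
        ring
      rw [e1, e2]
      have h3 := pow_div_factorial_le_exp |x| (abs_nonneg x) 4
      have h4 : exp |x| ≤ exp x + exp (-x) := by
        rcases le_total 0 x with h | h
        · rw [abs_of_nonneg h]
          linarith [exp_pos (-x)]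
        · rw [abs_of_nonpos h]
          linarith [exp_pos x]
      have h5 : |x| ^ 4 = x ^ 4 := by
        rw [← abs_pow]
        exact abs_of_nonneg (by positivity)
      rw [h5] at h3
      have h6 : ((Nat.factorial 4 : ℕ) : ℝ) = 24 := by norm_num [Nat.factorial]
      rw [h6, div_le_iff₀ (by norm_num)] at h3
      linarith
  refine k1.trans ?_
  rw [integral_add (integrable_const _) (i5.const_mul 24), integral_const_mul, integral_add i3 i4,
    integral_const_mul, integral_const_mul, integral_const, probReal_univ, one_smul]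
  have m1 : exp (-(l * (cN * L))) * ∫ ω, exp (l * (changes n ω : ℝ)) ∂(bondLaw hlf) ≤
      C1 * exp (vN + cN) := by
    rw [int_pow]
    calc exp (-(l * (cN * L))) * ET n (fun m => exp l ^ m) ≤
        exp (-(l * (cN * L))) * (C1 * exp ((cN * l + vN * l ^ 2 / 2 + cN * l ^ 3) * L)) :=
          mul_le_mul_of_nonneg_left (h1 l hl0.le hl1 n hn) (exp_pos _).le
      _ = C1 * exp (-(l * (cN * L)) + (cN * l + vN * l ^ 2 / 2 + cN * l ^ 3) * L) := by
          rw [exp_add]; ring
      _ ≤ C1 * exp (vN + cN) := by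
          apply mul_le_mul_of_nonneg_left _ hC1.le
          apply exp_le_exp.2
          have e : -(l * (cN * L)) + (cN * l + vN * l ^ 2 / 2 + cN * l ^ 3) * L =
              vN / 2 * (l ^ 2 * L) + cN * l * (l ^ 2 * L) := by ring
          rw [e, hl2]
          nlinarith
  have m2 : exp (l * (cN * L)) * ∫ ω, exp (-l * (changes n ω : ℝ)) ∂(bondLaw hlf) ≤
      C2 * exp (vN + cN) := by
    rw [int_pow]
    calc exp (l * (cN * L)) * ET n (fun m => exp (-l) ^ m) ≤
        exp (l * (cN * L)) * (C2 * exp ((-(cN * l) + vN * l ^ 2 / 2 + cN * l ^ 3) * L)) :=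
          mul_le_mul_of_nonneg_left (h2 l hl0.le hl1 n hn) (exp_pos _).le
      _ = C2 * exp (l * (cN * L) + (-(cN * l) + vN * l ^ 2 / 2 + cN * l ^ 3) * L) := by
          rw [exp_add]; ring
      _ ≤ C2 * exp (vN + cN) := by
          apply mul_le_mul_of_nonneg_left _ hC2.le
          apply exp_le_exp.2
          have e : l * (cN * L) + (-(cN * l) + vN * l ^ 2 / 2 + cN * l ^ 3) * L =
              vN / 2 * (l ^ 2 * L) + cN * l * (l ^ 2 * L) := by ring
          rw [e, hl2]
          nlinarith
  linarith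

theorem cdf_lim (x : ℝ) : Tendsto (fun n : ℕ => (bondLaw hlf).real
    {ω | ((changes n ω : ℝ) - cN * log n) / √(log n) ≤ x}) atTop
      (𝓝 ((gaussianReal 0 (Real.toNNReal vN)).real (Set.Iic x))) := by
  have hlog : Tendsto (fun n : ℕ => log (n : ℝ)) atTop atTop :=
    tendsto_log_atTop.comp tendsto_natCast_atTop_atTop
  refine (clt_ET x).congr' ?_
  filter_upwards [hlog.eventually_gt_atTop 0] with n hn
  rw [← prob_changes n (fun m => (m : ℝ) ≤ cN * Real.log n + x * √(Real.log n))]
  congr 1
  ext ω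
  simp only [Set.mem_ofPred_eq]
  rw [div_le_iff₀ (sqrt_pos.2 hn)]
  constructor <;> intro h <;> linarith

theorem var_asym : Tendsto (fun n : ℕ => Var[fun ω => (changes n ω : ℝ); bondLaw hlf] / log n) atTop
    (𝓝 vN) := by
  obtain ⟨M, hM⟩ := fourth
  obtain ⟨C, hC⟩ := ET_mean
  have hlog : Tendsto (fun n : ℕ => log (n : ℝ)) atTop atTop :=
    tendsto_log_atTop.comp tendsto_natCast_atTop_atTop
  have h := sq_lim (μ := bondLaw hlf)
    (X := fun n ω => ((changes n ω : ℝ) - cN * log n) / √(log n))
    (fun n => (measurable_of_countable (fun m : ℕ => ((m : ℝ) - cN * log n) / √(log n))).comp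
      (meas_changes n))
    (fun n => int_any (meas_changes n) (changes_le n)
      (fun m => (((m : ℝ) - cN * log n) / √(log n)) ^ 2))
    (fun n => int_any (meas_changes n) (changes_le n)
      (fun m => 1 + (((m : ℝ) - cN * log n) / √(log n)) ^ 4)) cdf_lim hM
  rw [coe_toNNReal _ vN_pos.le] at h
  have h0 : Tendsto (fun n : ℕ => (ET n (fun m => (m : ℝ)) - cN * log n) ^ 2 / log n) atTop (𝓝 0) := by
    apply squeeze_zero_norm' (a := fun n : ℕ => C ^ 2 / log n)
    · filter_upwards [eventually_ge_atTop 1] with n hn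
      have hl : 0 ≤ log (n : ℝ) := log_natCast_nonneg n
      rw [norm_of_nonneg (by positivity)]
      apply div_le_div_of_nonneg_right _ hl
      have := hC n hn
      rw [← sq_abs]
      exact pow_le_pow_left₀ (abs_nonneg _) this 2
    · exact hlog.const_div_atTop _
  have h1 := h.sub h0
  rw [sub_zero] at h1
  refine h1.congr' ?_
  filter_upwards [hlog.eventually_gt_atTop 0] with n hn
  set L : ℝ := log n
  have hmean : ∫ ω, (changes n ω : ℝ) ∂(bondLaw hlf) = ET n (fun m => (m : ℝ)) :=
    int_changes n (fun m => (m : ℝ))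
  have iT : Integrable (fun ω => (changes n ω : ℝ)) (bondLaw hlf) :=
    int_any (meas_changes n) (changes_le n) (fun m => (m : ℝ))
  rw [variance_eq_integral iT.aemeasurable, hmean]
  set a : ℝ := ET n (fun m => (m : ℝ))
  have e1 : ∫ ω, (((changes n ω : ℝ) - cN * L) / √L) ^ 2 ∂(bondLaw hlf) =
      (∫ ω, ((changes n ω : ℝ) - cN * L) ^ 2 ∂(bondLaw hlf)) / L := by
    rw [← integral_div]
    congr 1
    funext ω
    rw [div_pow, sq_sqrt hn.le]
  have i1 : Integrable (fun ω => ((changes n ω : ℝ) - cN * L) ^ 2) (bondLaw hlf) :=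
    int_any (meas_changes n) (changes_le n) (fun m => ((m : ℝ) - cN * L) ^ 2)
  have i2 : Integrable (fun ω => (-2 * (a - cN * L)) * (changes n ω : ℝ)) (bondLaw hlf) :=
    iT.const_mul _
  have e2 : ∫ ω, ((changes n ω : ℝ) - a) ^ 2 ∂(bondLaw hlf) =
      (∫ ω, ((changes n ω : ℝ) - cN * L) ^ 2 ∂(bondLaw hlf)) - (a - cN * L) ^ 2 := by
    have e3 : ∀ ω : sqLattice.edgeSet → Bool, ((changes n ω : ℝ) - a) ^ 2 =
        (((changes n ω : ℝ) - cN * L) ^ 2 + (-2 * (a - cN * L)) * (changes n ω : ℝ)) +
          (a ^ 2 - (cN * L) ^ 2) := by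
      intro ω
      ring
    simp_rw [e3]
    have i12 : Integrable (fun ω => ((changes n ω : ℝ) - cN * L) ^ 2 +
        (-2 * (a - cN * L)) * (changes n ω : ℝ)) (bondLaw hlf) := i1.add i2
    rw [integral_add i12 (integrable_const _), integral_add i1 i2, integral_const_mul, hmean,
      integral_const, probReal_univ, one_smul]
    ring
  rw [e1, e2, sub_div]

end Pool.Agent.H450R4.NL
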